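import Pool.Agent.Q20.Cp.Closed

/-!
# A bound for the super trace of an operator whose square is one up to trace zero operators
-/

set_option autoImplicit false

open Module Polynomial

namespace Q20.Cp

variable {K V : Type*} [Field K] [AddCommGroup V] [Module K V]

/-- Spectral idempotents for the eigenvalues `1`, `-1` and the others. -/
lemma spectral [Module.Finite K V] [CharZero K] (T : End K V) :
    ∃ E₁ E₂ E₃ s : K[X], aeval T E₁ + aeval T E₂ + aeval T E₃ = 1 ∧
      aeval T E₁ * aeval T E₁ = aeval T E₁ ∧ aeval T E₂ * aeval T E₂ = aeval T E₂ ∧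
      aeval T E₃ * aeval T E₃ = aeval T E₃ ∧ IsNilpotent ((T - 1) * aeval T E₁) ∧
      IsNilpotent ((T + 1) * aeval T E₂) ∧ aeval T E₃ = (T * T - 1) * aeval T s := by
  have hne : T.charpoly ≠ 0 := (LinearMap.charpoly_monic T).ne_zero
  obtain ⟨g, hg, hnd⟩ := exists_eq_pow_rootMultiplicity_mul_and_not_dvd T.charpoly hne 1
  set a := rootMultiplicity 1 T.charpoly
  have hg0 : g ≠ 0 := by
    rintro rfl
    rw [mul_zero] at hg
    exact hne hg
  obtain ⟨q, hq, hnd'⟩ := exists_eq_pow_rootMultiplicity_mul_and_not_dvd g hg0 (-1)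
  set b := rootMultiplicity (-1) g
  have hnd'' : ¬ (X - C 1) ∣ q := fun h => hnd (hq ▸ Dvd.dvd.mul_left h _)
  have c12 : IsCoprime (X - C (1 : K)) (X - C (-1)) := by
    refine ⟨C (-2⁻¹), C 2⁻¹, ?_⟩
    have h2 : (2 : K)⁻¹ * 2 = 1 := inv_mul_cancel₀ two_ne_zero
    have : C (-2⁻¹ : K) * (X - C (1 : K)) + C 2⁻¹ * (X - C (-1)) = C (2⁻¹ * 2) := by
      simp only [C_neg, C_mul, C_1]
      have : (C (2 : K)) = 2 := rfl
      rw [this]
      ring
    rw [this, h2, C_1]
  have c1q : IsCoprime (X - C (1 : K)) q := (irreducible_X_sub_C 1).coprime_iff_not_dvd.mpr hnd''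
  have c2q : IsCoprime (X - C (-1 : K)) q :=
    (irreducible_X_sub_C (-1)).coprime_iff_not_dvd.mpr hnd'
  obtain ⟨u, v, huv⟩ : IsCoprime ((X - C (1 : K)) ^ a) ((X - C (-1)) ^ b * q) :=
    (c12.pow.mul_right c1q.pow_left)
  obtain ⟨u', v', huv'⟩ : IsCoprime ((X - C (-1 : K)) ^ b) q := c2q.pow_left
  obtain ⟨w, z, hwz⟩ : IsCoprime ((X - C (1 : K)) * (X - C (-1))) q := c1q.mul_left c2q
  set P₁ := (X - C (1 : K)) ^ a with hP₁
  set P₂ := (X - C (-1 : K)) ^ b with hP₂
  have hch : T.charpoly = P₁ * (P₂ * q) := by rw [hg, hq]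
  have h0 : aeval T T.charpoly = 0 := LinearMap.aeval_self_charpoly T
  have hz : ∀ r : K[X], aeval T (T.charpoly * r) = 0 := fun r => by rw [map_mul, h0, zero_mul]
  have hX1 : aeval T (X - C (1 : K)) = T - 1 := by simp
  have hX2 : aeval T (X - C (-1 : K)) = T + 1 := by simp
  set E₁ := v * (P₂ * q) with hE₁
  set E₂ := u * v' * P₁ * q with hE₂
  set E₃ := u * u' * P₁ * P₂ with hE₃
  have hsum : E₁ + E₂ + E₃ = 1 := by
    rw [hE₁, hE₂, hE₃, ← huv]
    linear_combination (u * P₁) * huv'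
  have h12 : aeval T E₁ * aeval T E₂ = 0 := by
    rw [← map_mul, show E₁ * E₂ = T.charpoly * (v * (u * v') * q) by rw [hch, hE₁, hE₂]; ring, hz]
  have h13 : aeval T E₁ * aeval T E₃ = 0 := by
    rw [← map_mul, show E₁ * E₃ = T.charpoly * (v * (u * u') * P₂) by rw [hch, hE₁, hE₃]; ring, hz]
  have h23 : aeval T E₂ * aeval T E₃ = 0 := by
    rw [← map_mul, show E₂ * E₃ = T.charpoly * ((u * v') * (u * u') * P₁) by
      rw [hch, hE₂, hE₃]; ring, hz]
  have h21 : aeval T E₂ * aeval T E₁ = 0 := by rw [← map_mul, mul_comm, map_mul, h12]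
  have h31 : aeval T E₃ * aeval T E₁ = 0 := by rw [← map_mul, mul_comm, map_mul, h13]
  have h32 : aeval T E₃ * aeval T E₂ = 0 := by rw [← map_mul, mul_comm, map_mul, h23]
  have hs : aeval T E₁ + aeval T E₂ + aeval T E₃ = 1 := by
    rw [← map_add, ← map_add, hsum, map_one]
  have i1 : aeval T E₁ * aeval T E₁ = aeval T E₁ := by
    have := congrArg (fun y => aeval T E₁ * y) hs
    simpa only [mul_add, h12, h13, add_zero, mul_one] using this
  have i2 : aeval T E₂ * aeval T E₂ = aeval T E₂ := by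
    have := congrArg (fun y => aeval T E₂ * y) hs
    simpa only [mul_add, h21, h23, add_zero, zero_add, mul_one] using this
  have i3 : aeval T E₃ * aeval T E₃ = aeval T E₃ := by
    have := congrArg (fun y => aeval T E₃ * y) hs
    simpa only [mul_add, h31, h32, add_zero, zero_add, mul_one] using this
  refine ⟨E₁, E₂, E₃, E₃ * w, hs, i1, i2, i3, ⟨a + 1, ?_⟩, ⟨b + 1, ?_⟩, ?_⟩
  · have hc : Commute (T - 1) (aeval T E₁) := by
      rw [← hX1, commute_iff_eq, ← map_mul, mul_comm, map_mul]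
    rw [hc.mul_pow, IsIdempotentElem.pow_succ_eq a i1, ← hX1, ← map_pow, ← map_mul,
      show (X - C (1 : K)) ^ (a + 1) * E₁ = T.charpoly * (v * (X - C 1)) by
        rw [hch, hE₁, hP₁, pow_succ]; ring, hz]
  · have hc : Commute (T + 1) (aeval T E₂) := by
      rw [← hX2, commute_iff_eq, ← map_mul, mul_comm, map_mul]
    rw [hc.mul_pow, IsIdempotentElem.pow_succ_eq b i2, ← hX2, ← map_pow, ← map_mul,
      show (X - C (-1 : K)) ^ (b + 1) * E₂ = T.charpoly * (u * v' * (X - C (-1))) by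
        rw [hch, hE₂, hP₂, pow_succ]; ring, hz]
  · have h1 : E₃ = (X - C (1 : K)) * (X - C (-1)) * (E₃ * w) + T.charpoly * (u * u' * z) := by
      have h2 : T.charpoly * (u * u' * z) = E₃ * (z * q) := by
        rw [hch, hE₃]
        ring
      rw [h2]
      linear_combination (-E₃) * hwz
    have h2 : aeval T E₃ = aeval T ((X - C (1 : K)) * (X - C (-1)) * (E₃ * w)) := by
      conv_lhs => rw [h1]
      rw [map_add, hz, add_zero]
    rw [h2, map_mul, map_mul, hX1, hX2]
    congr 1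
    noncomm_ring

/-- The bound. -/
theorem str_le [Module.Finite K V] [CharZero K] {ε T : End K V} (hε : ε * ε = 1)
    (hc : T * ε = ε * T)
    (h0 : ∀ p : K[X], LinearMap.trace K V (ε * ((T * T - 1) * aeval T p)) = 0) :
    ∃ n : ℕ, LinearMap.trace K V (ε * T) + n = finrank K V ∧
      (n = 0 → ∃ p : K[X], aeval T p = ε) := by
  obtain ⟨E₁, E₂, E₃, s, hs, i1, i2, i3, n1, n2, h3⟩ := spectral T
  have hcom : ∀ p : K[X], aeval T p * ε = ε * aeval T p := by
    intro p
    have h1 : Commute T ε := hc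
    rw [aeval_eq_sum_range]
    exact Commute.sum_left _ _ _ fun i _ => (h1.pow_left i).smul_left _
  have h2K : (2 : K) ≠ 0 := two_ne_zero
  set e₁ := aeval T E₁
  set e₂ := aeval T E₂
  set e₃ := aeval T E₃
  set p : End K V := (2⁻¹ : K) • (1 + ε) with hp
  set m : End K V := (2⁻¹ : K) • (1 - ε) with hm
  have hpp : p * p = p := by
    rw [hp, smul_mul_smul_comm, add_mul, mul_add, one_mul, mul_add, one_mul, mul_one, hε]
    rw [show (1 : End K V) + ε + (ε + 1) = (2 : K) • (1 + ε) by rw [two_smul]; abel, smul_smul]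
    congr 1
    field_simp
  have hmm : m * m = m := by
    rw [hm, smul_mul_smul_comm, sub_mul, mul_sub, one_mul, mul_sub, one_mul, mul_one, hε]
    rw [show (1 : End K V) - ε - (ε - 1) = (2 : K) • (1 - ε) by rw [two_smul]; abel, smul_smul]
    congr 1
    field_simp
  have hpm : p + m = 1 := by
    rw [hp, hm, ← smul_add, show (1 : End K V) + ε + (1 - ε) = (2 : K) • 1 by
      rw [two_smul]; abel, smul_smul, inv_mul_cancel₀ h2K, one_smul]
  have hpm' : p - m = ε := by
    rw [hp, hm, ← smul_sub, show (1 : End K V) + ε - (1 - ε) = (2 : K) • ε by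
      rw [two_smul]; abel, smul_smul, inv_mul_cancel₀ h2K, one_smul]
  have cp : ∀ q : K[X], aeval T q * p = p * aeval T q := by
    intro q
    rw [hp, mul_smul_comm, smul_mul_assoc, mul_add, add_mul, hcom, mul_one, one_mul]
  have cm : ∀ q : K[X], aeval T q * m = m * aeval T q := by
    intro q
    rw [hm, mul_smul_comm, smul_mul_assoc, mul_sub, sub_mul, hcom, mul_one, one_mul]
  have idem : ∀ (q : K[X]) (r : End K V), aeval T q * aeval T q = aeval T q → r * r = r →
      aeval T q * r = r * aeval T q → (r * aeval T q) * (r * aeval T q) = r * aeval T q := by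
    intro q r hq hr hqr
    rw [mul_assoc, ← mul_assoc (aeval T q), hqr, mul_assoc, hq, ← mul_assoc, hr]
  obtain ⟨α, hα, hα0⟩ : ∃ n : ℕ, LinearMap.trace K V (p * e₁) = n ∧ (n = 0 → p * e₁ = 0) :=
    nat_trace (idem E₁ p i1 hpp (cp E₁))
  obtain ⟨β, hβ, hβ0⟩ : ∃ n : ℕ, LinearMap.trace K V (m * e₁) = n ∧ (n = 0 → m * e₁ = 0) :=
    nat_trace (idem E₁ m i1 hmm (cm E₁))
  obtain ⟨γ, hγ, hγ0⟩ : ∃ n : ℕ, LinearMap.trace K V (p * e₂) = n ∧ (n = 0 → p * e₂ = 0) :=
    nat_trace (idem E₂ p i2 hpp (cp E₂))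
  obtain ⟨δ, hδ, hδ0⟩ : ∃ n : ℕ, LinearMap.trace K V (m * e₂) = n ∧ (n = 0 → m * e₂ = 0) :=
    nat_trace (idem E₂ m i2 hmm (cm E₂))
  obtain ⟨ζ, hζ, hζ0⟩ : ∃ n : ℕ, LinearMap.trace K V (p * e₃) = n ∧ (n = 0 → p * e₃ = 0) :=
    nat_trace (idem E₃ p i3 hpp (cp E₃))
  obtain ⟨ζ', hζ', hζ'0⟩ : ∃ n : ℕ, LinearMap.trace K V (m * e₃) = n ∧ (n = 0 → m * e₃ = 0) :=
    nat_trace (idem E₃ m i3 hmm (cm E₃))
  have hdim : (finrank K V : K) = α + β + γ + δ + ζ + ζ' := by
    have h5 : p * e₁ + m * e₁ = e₁ := by rw [← add_mul, hpm, one_mul]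
    have h6 : p * e₂ + m * e₂ = e₂ := by rw [← add_mul, hpm, one_mul]
    have h7 : p * e₃ + m * e₃ = e₃ := by rw [← add_mul, hpm, one_mul]
    have h8 : (1 : End K V) = (p * e₁ + m * e₁) + (p * e₂ + m * e₂) + (p * e₃ + m * e₃) := by
      rw [h5, h6, h7, hs]
    have h9 := congrArg (LinearMap.trace K V) h8
    rw [LinearMap.trace_one, map_add, map_add, map_add, map_add, map_add, hα, hβ, hγ, hδ, hζ,
      hζ'] at h9
    rw [h9]
    ring
  have hnil : ∀ N : End K V, IsNilpotent N → N * ε = ε * N → LinearMap.trace K V (ε * N) = 0 := by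
    intro N hN hNε
    have h5 : IsNilpotent (ε * N) := by
      obtain ⟨k, hk⟩ := hN
      refine ⟨k, ?_⟩
      have : Commute ε N := hNε.symm
      rw [this.mul_pow, hk, mul_zero]
    exact (LinearMap.isNilpotent_trace_of_isNilpotent h5).eq_zero
  have hT : aeval T (X : K[X]) = T := aeval_X T
  have t1 : LinearMap.trace K V (ε * (T * e₁)) = α - β := by
    have h5 : ε * (T * e₁) = (p * e₁ - m * e₁) + ε * ((T - 1) * e₁) := by
      rw [← sub_mul, hpm', sub_mul, one_mul, mul_sub]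
      abel
    rw [h5, map_add, map_sub, hα, hβ, hnil _ n1, add_zero]
    rw [sub_mul, one_mul, sub_mul, mul_sub, mul_assoc, hcom, ← mul_assoc, hc, mul_assoc]
  have t2 : LinearMap.trace K V (ε * (T * e₂)) = - (γ - δ) := by
    have h5 : ε * (T * e₂) = ε * ((T + 1) * e₂) - (p * e₂ - m * e₂) := by
      rw [← sub_mul, hpm', add_mul, one_mul, mul_add]
      abel
    rw [h5, map_sub, map_sub, hγ, hδ, hnil _ n2, zero_sub]
    rw [add_mul, one_mul, add_mul, mul_add, mul_assoc, hcom, ← mul_assoc, hc, mul_assoc]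
  have t3 : LinearMap.trace K V (ε * (T * e₃)) = 0 := by
    have h5 : T * e₃ = (T * T - 1) * aeval T (s * X) := by
      rw [h3, map_mul, hT]
      have h6 : T * (T * T - 1) = (T * T - 1) * T := by noncomm_ring
      have h7 : T * aeval T s = aeval T s * T := by
        have h8 : aeval T (X * s) = aeval T (s * X) := by rw [mul_comm]
        rwa [map_mul, map_mul, hT] at h8
      rw [← mul_assoc, h6, mul_assoc, h7]
    rw [h5, h0]
  have t4 : LinearMap.trace K V (ε * e₃) = 0 := by rw [h3, h0]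
  have t5 : LinearMap.trace K V (ε * T) = α - β - (γ - δ) := by
    have h5 : ε * T = ε * (T * e₁) + ε * (T * e₂) + ε * (T * e₃) := by
      rw [← mul_add, ← mul_add, ← mul_add, ← mul_add, hs, mul_one]
    rw [h5, map_add, map_add, t1, t2, t3]
    ring
  refine ⟨2 * β + 2 * γ + ζ + ζ', ?_, ?_⟩
  · rw [t5, hdim]
    push_cast
    ring
  · intro hn
    have z1 : β = 0 := by omega
    have z2 : γ = 0 := by omega
    have z3 : ζ = 0 := by omega
    have z4 : ζ' = 0 := by omega
    refine ⟨E₁ - E₂, ?_⟩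
    rw [map_sub]
    have y1 : m * e₁ = 0 := hβ0 z1
    have y2 : p * e₂ = 0 := hγ0 z2
    have y3 : p * e₃ = 0 := hζ0 z3
    have y4 : m * e₃ = 0 := hζ'0 z4
    change e₁ - e₂ = ε
    have x1 : ε * e₁ = e₁ := by
      have h5 : (p + m) * e₁ = e₁ := by rw [hpm, one_mul]
      rw [← hpm', sub_mul, y1, sub_zero]
      rw [add_mul, y1, add_zero] at h5
      exact h5
    have x2 : ε * e₂ = - e₂ := by
      have h5 : (p + m) * e₂ = e₂ := by rw [hpm, one_mul]
      rw [← hpm', sub_mul, y2, zero_sub]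
      rw [add_mul, y2, zero_add] at h5
      rw [h5]
    have x3 : ε * e₃ = 0 := by rw [← hpm', sub_mul, y3, y4, sub_zero]
    calc e₁ - e₂ = ε * e₁ + ε * e₂ + ε * e₃ := by rw [x1, x2, x3]; abel
      _ = ε := by rw [← mul_add, ← mul_add, hs, mul_one]

end Q20.Cp
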