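import Pool.Agent.Q20.Cp.Gram

/-!
# The Casimir operator of the super trace form
-/

set_option autoImplicit false

open Module Matrix

namespace Q20.Cp

variable {K V : Type*} [Field K] [AddCommGroup V] [Module K V] {ι : Type} [Fintype ι]
  [DecidableEq ι]

/-- The matrix of the left multiplication modulo the radical. -/
noncomputable def rho (ε : End K V) (a : ι → End K V) (x : End K V) : Matrix ι ι K :=
  (gram ε a)⁻¹ * of fun j i => B ε (a j) (x * a i)

/-- The Casimir operator. -/
noncomputable def cas (ε : End K V) (a : ι → End K V) : End K V :=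
  ∑ l, ∑ j, (gram ε a)⁻¹ l j • (a l * a j)

lemma rho_add (ε : End K V) (a : ι → End K V) (x y : End K V) :
    rho ε a (x + y) = rho ε a x + rho ε a y := by
  rw [rho, rho, rho, ← mul_add]
  congr 1
  ext j i
  simp [add_mul, B_add_right]

lemma rho_smul (ε : End K V) (a : ι → End K V) (c : K) (x : End K V) :
    rho ε a (c • x) = c • rho ε a x := by
  rw [rho, rho, ← mul_smul_comm]
  congr 1
  ext j i
  simp [smul_mul_assoc, B_smul_right]

lemma rho_one {ε : End K V} {a : ι → End K V} (hdet : (gram ε a).det ≠ 0) :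
    rho ε a 1 = 1 := by
  have h1 : (of fun j i => B ε (a j) (1 * a i) : Matrix ι ι K) = gram ε a := by
    ext j i
    simp [gram]
  rw [rho, h1, nonsing_inv_mul _ (isUnit_iff_ne_zero.mpr hdet)]

section

variable {ε : End K V} {A : Set (End K V)} (hA : IsAlg ε A) {a : ι → End K V}
  (ha : ∀ i, a i ∈ A)
  (hR : ∀ x ∈ Submodule.span K A, ∀ y ∈ Submodule.span K A, Res ε a x y = 0)

include hR in
lemma B_expand {x y : End K V} (hx : x ∈ Submodule.span K A) (hy : y ∈ Submodule.span K A) :
    B ε x y = ∑ l, ∑ j, B ε x (a l) * (gram ε a)⁻¹ l j * B ε (a j) y :=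
  sub_eq_zero.mp (hR x hx y hy)

include hA ha hR in
lemma rho_mul {x y : End K V} (hx : x ∈ Submodule.span K A) (hy : y ∈ Submodule.span K A) :
    rho ε a (x * y) = rho ε a x * rho ε a y := by
  have hm : ∀ i, a i ∈ Submodule.span K A := fun i => Submodule.subset_span (ha i)
  rw [rho, rho, rho, Matrix.mul_assoc]
  congr 1
  ext j i
  simp only [Matrix.mul_apply, of_apply]
  have h1 := B_expand hR (span_mul hA (hm j) hx) (span_mul hA hy (hm i))
  rw [B_assoc, ← mul_assoc] at h1
  rw [h1]
  refine Finset.sum_congr rfl fun l _ => ?_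
  rw [Finset.mul_sum]
  refine Finset.sum_congr rfl fun m _ => ?_
  rw [B_assoc, mul_assoc]

include hA ha hR in
lemma rho_pow (hdet : (gram ε a).det ≠ 0) {x : End K V} (hx : x ∈ Submodule.span K A) (k : ℕ) :
    rho ε a (x ^ k) = rho ε a x ^ k := by
  induction k with
  | zero => rw [pow_zero, pow_zero, rho_one hdet]
  | succ k ih => rw [pow_succ, pow_succ, rho_mul hA ha hR (span_pow hA hx k) hx, ih]

include hA ha in
lemma trace_rho (x : End K V) : (rho ε a x).trace = B ε (cas ε a) x := by
  rw [rho, cas, B_sum_left, Matrix.trace]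
  refine Finset.sum_congr rfl fun l _ => ?_
  rw [B_sum_left, diag_apply, Matrix.mul_apply]
  refine Finset.sum_congr rfl fun j _ => ?_
  rw [B_smul_left, of_apply]
  congr 1
  have h1 := hA.comm _ (ha l)
  have h2 := hA.comm _ (ha j)
  rw [B, B, ← mul_assoc, ← mul_assoc, ← mul_assoc, ← mul_assoc,
    LinearMap.trace_mul_comm K (ε * a j * x) (a l), ← mul_assoc, ← mul_assoc, h1]

include hA ha hR in
/-- Elements of the span in the kernel of `rho` are in the radical. -/
lemma radical_of_rho (hdet : (gram ε a).det ≠ 0) {x y : End K V}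
    (hx : x ∈ Submodule.span K A) (hy : y ∈ Submodule.span K A) (h : rho ε a x = 0) :
    B ε x y = 0 := by
  have hm : ∀ i, a i ∈ Submodule.span K A := fun i => Submodule.subset_span (ha i)
  have h0 : ∀ j i, B ε (a j) (x * a i) = 0 := by
    have h1 : gram ε a * rho ε a x = 0 := by rw [h, Matrix.mul_zero]
    rw [rho, ← Matrix.mul_assoc, mul_nonsing_inv _ (isUnit_iff_ne_zero.mpr hdet),
      Matrix.one_mul] at h1
    intro j i
    exact congrFun (congrFun h1 j) i
  have h2 : ∀ l, B ε x (a l) = 0 := by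
    intro l
    have h3 : B ε x (a l) = B ε 1 (x * a l) := by rw [← B_assoc, one_mul]
    rw [h3, B_expand hR (Submodule.subset_span hA.one) (span_mul hA hx (hm l))]
    refine Finset.sum_eq_zero fun i _ => Finset.sum_eq_zero fun j _ => ?_
    rw [h0, mul_zero]
  rw [B_expand hR hx hy]
  refine Finset.sum_eq_zero fun i _ => Finset.sum_eq_zero fun j _ => ?_
  rw [h2, zero_mul, zero_mul]

end

/-- The Casimir operator is in `A`. -/
lemma cas_mem [CharZero K] {ε : End K V} {A : Set (End K V)} (hA : IsAlg ε A) {a : ι → End K V}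
    (ha : ∀ i, a i ∈ A) : cas ε a ∈ A := by
  have h1 : ∀ i j, ∃ q : ℚ, B ε (a i) (a j) = q := fun i j => hA.rat _ (hA.mul _ (ha i) _ (ha j))
  choose q hq using h1
  have h2 : gram ε a = (of q).map (algebraMap ℚ K) := by
    ext i j
    simp [gram, hq]
  have h3 : ∀ l j, ∃ r : ℚ, (gram ε a)⁻¹ l j = r := by
    intro l j
    by_cases hd : (of q).det = 0
    · refine ⟨0, ?_⟩
      have : (gram ε a).det = 0 := by
        rw [h2, ← RingHom.mapMatrix_apply, ← RingHom.map_det, hd, map_zero]
      rw [nonsing_inv_apply_not_isUnit _ (by rw [this]; exact not_isUnit_zero)]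
      simp
    · refine ⟨(of q)⁻¹ l j, ?_⟩
      have h4 : ((of q)⁻¹.map (algebraMap ℚ K)) * gram ε a = 1 := by
        rw [h2, ← Matrix.map_mul, nonsing_inv_mul _ (isUnit_iff_ne_zero.mpr hd)]
        simp
      rw [inv_eq_left_inv h4]
      simp
  rw [cas]
  refine hA.sum _ _ fun l _ => hA.sum _ _ fun j _ => ?_
  obtain ⟨r, hr⟩ := h3 l j
  rw [hr]
  exact hA.smul _ _ (hA.mul _ (ha l) _ (ha j))

end Q20.Cp
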