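import Pool.Agent.Q20.Cp.Core
import Pool.Agent.Q20.Cp.Bound
import Pool.Agent.Y112.SR.Main

/-!
# The sign conjecture, coefficients and numerical dimension
-/

set_option autoImplicit false
set_option linter.unusedSectionVars false
set_option backward.isDefEq.respectTransparency false
set_option backward.defeqAttrib.useBackward true

open CategoryTheory Limits MonoidalCategory Module Polynomial

namespace Q20.Cp

open Pool.Agent.Y112.SR

universe v u w

open Functor.LaxMonoidal Functor.OplaxMonoidal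

section Defs

variable {C : Type u} [Category.{v} C] [Preadditive C] [MonoidalCategory C] [SymmetricCategory C]
  [RightRigidCategory C]

/-- The trace of an endomorphism of an object of a rigid symmetric monoidal category, an
endomorphism of the unit. -/
def ctr {M : C} (x : M ⟶ M) : 𝟙_ C ⟶ 𝟙_ C :=
  η_ M Mᘁ ≫ x ▷ Mᘁ ≫ (β_ M Mᘁ).hom ≫ ε_ M Mᘁ

/-- An endomorphism `f` is numerically trivial if the traces of all the `f ≫ g` vanish. -/
def NumTriv {M : C} (f : M ⟶ M) : Prop := ∀ g : M ⟶ M, ctr (f ≫ g) = 0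

/-- The numerical dimension of `M`: the largest natural number which is the trace of an
endomorphism of `M` whose square is the identity up to a numerically trivial endomorphism (and `0`
if there is no largest one). -/
noncomputable def numDim [Linear ℚ C] (M : C) : ℕ :=
  sSup {n : ℕ | ∃ x : M ⟶ M, NumTriv (x ≫ x - 𝟙 M) ∧ ctr x = (n : ℚ) • 𝟙 (𝟙_ C)}

end Defs

section

variable {C : Type u} [Category.{v} C] [Preadditive C] [Linear ℚ C] [MonoidalCategory C]
  [SymmetricCategory C] [RightRigidCategory C] {K : Type w} [Field K] (R : SuperRealisation C K)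

/-- The operator attached to an endomorphism. -/
noncomputable def op {M : C} (f : M ⟶ M) : End K (R.H.obj M) := (R.H.map f).hom

/-- The grading operator. -/
noncomputable def gr (M : C) : End K (R.H.obj M) := (R.par M).hom

lemma gr_sq (M : C) : gr R M * gr R M = 1 := by
  have h := congrArg ModuleCat.Hom.hom (R.par_sq M)
  exact h

lemma op_comm {M : C} (f : M ⟶ M) : op R f * gr R M = gr R M * op R f := by
  have h := congrArg ModuleCat.Hom.hom (R.par_natural f)
  exact h.symm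

lemma op_comp {M : C} (f g : M ⟶ M) : op R (f ≫ g) = op R g * op R f := by
  rw [op, Functor.map_comp]
  rfl

lemma op_id (M : C) : op R (𝟙 M) = 1 := by
  rw [op, CategoryTheory.Functor.map_id]
  rfl

lemma op_add {M : C} (f g : M ⟶ M) : op R (f + g) = op R f + op R g := by
  rw [op, Functor.map_add]
  rfl

lemma op_sub {M : C} (f g : M ⟶ M) : op R (f - g) = op R f - op R g := by
  rw [op, Functor.map_sub]
  rfl

lemma op_smul [CharZero K] {M : C} (q : ℚ) (f : M ⟶ M) : op R (q • f) = (q : K) • op R f := by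
  rw [op, R_smul]
  rfl

lemma map_ctr (h2 : (2 : K) ≠ 0) {M : C} (x : M ⟶ M) :
    ε R.H ≫ R.H.map (ctr x) ≫ η R.H = (LinearMap.trace K (R.H.obj M) (gr R M * op R x)) • 𝟙 _ := by
  have h0 := R.finite M
  have h1 := Pool.Agent.Y116.MT.vec_trace (coe R M) (evb R M) (zigzag R M) (R.H.map x ≫ R.par M)
  have h3 : coe R M ≫ R.H.map x ▷ R.H.obj Mᘁ ≫ eva R M =
      (LinearMap.trace K (R.H.obj M) (R.H.map x ≫ R.par M).hom) • 𝟙 _ := by
    rw [eva_eq R h2, ← h1, ← unit_hom]
    simp only [comp_whiskerRight, Category.assoc]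
  have h4 : (gr R M * op R x) = (R.H.map x ≫ R.par M).hom := rfl
  rw [h4, ← h3]
  simp only [ctr, coe, eva, Functor.map_comp, Functor.Monoidal.map_whiskerRight, Category.assoc]

lemma str_of_ctr [CharZero K] {M : C} {x : M ⟶ M} {q : ℚ} (h : ctr x = q • 𝟙 (𝟙_ C)) :
    LinearMap.trace K (R.H.obj M) (gr R M * op R x) = q := by
  have h1 := map_ctr R two_ne_zero x
  rw [h, R_smul, CategoryTheory.Functor.map_id, Linear.smul_comp, Category.id_comp,
    Linear.comp_smul, Functor.Monoidal.ε_η] at h1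
  have h2 := LinearMap.congr_fun (congrArg ModuleCat.Hom.hom h1) (1 : K)
  change (q : K) • (1 : K) = (LinearMap.trace K (R.H.obj M) (gr R M * op R x)) • (1 : K) at h2
  simpa using h2.symm

lemma isAlg [CharZero K] (hunit : ∀ z : 𝟙_ C ⟶ 𝟙_ C, ∃ q : ℚ, z = q • 𝟙 (𝟙_ C)) (M : C) :
    IsAlg (gr R M) (Set.range fun f : M ⟶ M => op R f) := by
  refine ⟨⟨𝟙 M, op_id R M⟩, ?_, ?_, ?_, ?_, ?_⟩
  · rintro _ ⟨f, rfl⟩ _ ⟨g, rfl⟩
    exact ⟨f + g, op_add R f g⟩
  · rintro _ ⟨f, rfl⟩ _ ⟨g, rfl⟩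
    exact ⟨g ≫ f, op_comp R g f⟩
  · rintro q _ ⟨f, rfl⟩
    exact ⟨q • f, op_smul R q f⟩
  · rintro _ ⟨f, rfl⟩
    exact op_comm R f
  · rintro _ ⟨f, rfl⟩
    obtain ⟨q, hq⟩ := hunit (ctr f)
    exact ⟨q, str_of_ctr R hq⟩

lemma cplus_iff_range (M : C) : R.CPlus M ↔ gr R M ∈ Set.range fun f : M ⟶ M => op R f := by
  rw [cplus_iff]
  constructor
  · rintro ⟨g, hg⟩
    exact ⟨g, congrArg ModuleCat.Hom.hom hg⟩
  · rintro ⟨g, hg⟩
    exact ⟨g, ModuleCat.hom_ext hg⟩

lemma cplus_of_span (hunit : ∀ z : 𝟙_ C ⟶ 𝟙_ C, ∃ q : ℚ, z = q • 𝟙 (𝟙_ C)) (M : C)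
    (h : gr R M ∈ Submodule.span K (Set.range fun f : M ⟶ M => op R f)) : R.CPlus M := by
  have := R_charZero R
  have := R.finite M
  rw [cplus_iff_range]
  exact core (isAlg R hunit M) (gr_sq R M) h

lemma op_mem (M : C) (f : M ⟶ M) :
    op R f ∈ Submodule.span K (Set.range fun f : M ⟶ M => op R f) :=
  Submodule.subset_span ⟨f, rfl⟩

lemma cplus_of_aeval (hunit : ∀ z : 𝟙_ C ⟶ 𝟙_ C, ∃ q : ℚ, z = q • 𝟙 (𝟙_ C)) {M : C}
    (f : M ⟶ M) (P : K[X]) (h : aeval (op R f) P = gr R M) : R.CPlus M := by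
  have := R_charZero R
  refine cplus_of_span R hunit M ?_
  rw [← h]
  exact span_aeval (isAlg R hunit M) (op_mem R M f) P

/-- The super trace of a numerically trivial endomorphism times an operator in the span is zero. -/
lemma str_numTriv [CharZero K] {M : C} {f : M ⟶ M} (hf : NumTriv f) {y : End K (R.H.obj M)}
    (hy : y ∈ Submodule.span K (Set.range fun f : M ⟶ M => op R f)) :
    LinearMap.trace K (R.H.obj M) (gr R M * (op R f * y)) = 0 := by
  have h2 : LinearMap.trace K (R.H.obj M) (gr R M * (y * op R f)) = 0 := by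
    induction hy using Submodule.span_induction with
    | mem y hy =>
      obtain ⟨g, rfl⟩ := hy
      have h3 : ctr (f ≫ g) = (0 : ℚ) • 𝟙 (𝟙_ C) := by rw [hf g, zero_smul]
      have h4 := str_of_ctr R h3
      rw [op_comp, Rat.cast_zero] at h4
      exact h4
    | zero => simp
    | add x y _ _ hx hy => rw [add_mul, mul_add, map_add, hx, hy, add_zero]
    | smul c x _ hx => rw [smul_mul_assoc, mul_smul_comm, map_smul, hx, smul_zero]
  rw [← mul_assoc, ← op_comm, mul_assoc, LinearMap.trace_mul_comm, mul_assoc]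
  exact h2

/-- The bound for traces. -/
lemma ctr_le (hunit : ∀ z : 𝟙_ C ⟶ 𝟙_ C, ∃ q : ℚ, z = q • 𝟙 (𝟙_ C)) {M : C} {x : M ⟶ M}
    (hx : NumTriv (x ≫ x - 𝟙 M)) {q : ℚ} (hq : ctr x = q • 𝟙 (𝟙_ C)) :
    ∃ n : ℕ, q + n = finrank K (R.H.obj M) ∧ (n = 0 → R.CPlus M) := by
  have := R_charZero R
  have := R.finite M
  have h0 : ∀ p : K[X], LinearMap.trace K (R.H.obj M) (gr R M *
      ((op R x * op R x - 1) * aeval (op R x) p)) = 0 := by
    intro p
    have h1 : op R (x ≫ x - 𝟙 M) = op R x * op R x - 1 := by rw [op_sub, op_comp, op_id]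
    rw [← h1]
    exact str_numTriv R hx (span_aeval (isAlg R hunit M) (op_mem R M x) p)
  obtain ⟨n, hn, hn0⟩ := str_le (gr_sq R M) (op_comm R x) h0
  refine ⟨n, ?_, fun h => ?_⟩
  · rw [str_of_ctr R hq] at hn
    have h2 : ((q + n : ℚ) : K) = ((finrank K (R.H.obj M) : ℚ) : K) := by
      push_cast
      exact hn
    exact_mod_cast h2
  · obtain ⟨p, hp⟩ := hn0 h
    exact cplus_of_aeval R hunit x p hp

lemma ctr_of_cplus (hunit : ∀ z : 𝟙_ C ⟶ 𝟙_ C, ∃ q : ℚ, z = q • 𝟙 (𝟙_ C)) {M : C}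
    (h : R.CPlus M) : ∃ x : M ⟶ M, NumTriv (x ≫ x - 𝟙 M) ∧
      ctr x = (finrank K (R.H.obj M) : ℚ) • 𝟙 (𝟙_ C) := by
  have := R_charZero R
  have := R.finite M
  rw [cplus_iff_range] at h
  obtain ⟨x, hx⟩ := h
  replace hx : op R x = gr R M := hx
  refine ⟨x, ?_, ?_⟩
  · intro g
    obtain ⟨q, hq⟩ := hunit (ctr ((x ≫ x - 𝟙 M) ≫ g))
    have h1 := str_of_ctr R hq
    rw [op_comp, op_sub, op_comp, op_id, hx, gr_sq, sub_self, mul_zero, mul_zero, map_zero] at h1
    have h2 : q = 0 := by exact_mod_cast h1.symm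
    rw [hq, h2, zero_smul]
  · obtain ⟨q, hq⟩ := hunit (ctr x)
    have h1 := str_of_ctr R hq
    rw [hx, gr_sq, LinearMap.trace_one] at h1
    have h2 : q = finrank K (R.H.obj M) := by exact_mod_cast h1.symm
    rw [hq, h2]

lemma numDim_le (hunit : ∀ z : 𝟙_ C ⟶ 𝟙_ C, ∃ q : ℚ, z = q • 𝟙 (𝟙_ C)) (M : C) :
    numDim M ≤ finrank K (R.H.obj M) := by
  refine csSup_le' ?_
  rintro n ⟨x, hx, hn⟩
  obtain ⟨m, hm, -⟩ := ctr_le R hunit hx hn
  have : n + m = finrank K (R.H.obj M) := by exact_mod_cast hm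
  omega

lemma numDim_iff (hunit : ∀ z : 𝟙_ C ⟶ 𝟙_ C, ∃ q : ℚ, z = q • 𝟙 (𝟙_ C)) (M : C) :
    R.CPlus M ↔ finrank K (R.H.obj M) = numDim M := by
  have := R_charZero R
  have := R.finite M
  have hbdd : BddAbove {n : ℕ | ∃ x : M ⟶ M, NumTriv (x ≫ x - 𝟙 M) ∧
      ctr x = (n : ℚ) • 𝟙 (𝟙_ C)} := by
    refine ⟨finrank K (R.H.obj M), ?_⟩
    rintro n ⟨x, hx, hn⟩
    obtain ⟨m, hm, -⟩ := ctr_le R hunit hx hn
    have : n + m = finrank K (R.H.obj M) := by exact_mod_cast hm
    omega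
  constructor
  · intro h
    exact le_antisymm (le_csSup hbdd (ctr_of_cplus R hunit h)) (numDim_le R hunit M)
  · intro h
    by_cases h0 : finrank K (R.H.obj M) = 0
    · refine cplus_of_isZero R M ?_
      rw [ModuleCat.isZero_iff_subsingleton]
      exact Module.finrank_zero_iff.mp h0
    · have hne : {n : ℕ | ∃ x : M ⟶ M, NumTriv (x ≫ x - 𝟙 M) ∧
          ctr x = (n : ℚ) • 𝟙 (𝟙_ C)}.Nonempty := by
        rw [Set.nonempty_iff_ne_empty]
        intro h1
        apply h0
        rw [h, numDim, h1]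
        simp
      obtain ⟨x, hx, hn⟩ := Nat.sSup_mem hne hbdd
      change ctr x = (numDim M : ℚ) • 𝟙 (𝟙_ C) at hn
      rw [← h] at hn
      obtain ⟨m, hm, hm0⟩ := ctr_le R hunit hx hn
      have : m = 0 := by
        have : finrank K (R.H.obj M) + m = finrank K (R.H.obj M) := by exact_mod_cast hm
        omega
      exact hm0 this

lemma cplus_of_coprime (hunit : ∀ z : 𝟙_ C ⟶ 𝟙_ C, ∃ q : ℚ, z = q • 𝟙 (𝟙_ C)) {M : C}
    {T : End K (R.H.obj M)} (hT : T ∈ Submodule.span K (Set.range fun f : M ⟶ M => op R f))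
    (P Q : K[X]) (hPQ : IsCoprime P Q)
    (hP : ∀ v, gr R M v = v → aeval T P v = 0)
    (hQ : ∀ v, gr R M v = - v → aeval T Q v = 0) : R.CPlus M := by
  have := R_charZero R
  obtain ⟨a, b, hab⟩ := hPQ
  refine cplus_of_span R hunit M ?_
  suffices h : aeval T (Polynomial.C (2 : K) * (b * Q) - 1) = gr R M by
    rw [← h]
    exact span_aeval (isAlg R hunit M) hT _
  have hs : ∀ v, gr R M (gr R M v) = v := fun v => LinearMap.congr_fun (gr_sq R M) v
  have h1 : aeval T a * aeval T P + aeval T b * aeval T Q = 1 := by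
    rw [← map_mul, ← map_mul, ← map_add, hab, map_one]
  refine LinearMap.ext fun v => ?_
  have h2 : aeval T P (v + gr R M v) = 0 := by
    refine hP _ ?_
    rw [map_add, hs, add_comm]
  have h3 : aeval T Q (v - gr R M v) = 0 := by
    refine hQ _ ?_
    rw [map_sub, hs, neg_sub]
  have h4 : (aeval T b * aeval T Q) (v + gr R M v) = v + gr R M v := by
    have h5 := LinearMap.congr_fun h1 (v + gr R M v)
    rw [LinearMap.add_apply, Module.End.mul_apply, h2, map_zero, zero_add] at h5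
    exact h5
  have h5 : (aeval T b * aeval T Q) (v - gr R M v) = 0 := by
    rw [Module.End.mul_apply, h3, map_zero]
  have h6 : (aeval T b * aeval T Q) ((2 : K) • v) = v + gr R M v := by
    have h7 : (2 : K) • v = (v + gr R M v) + (v - gr R M v) := by
      rw [two_smul]
      abel
    rw [h7, map_add, h4, h5, add_zero]
  rw [map_sub, map_mul, map_mul, map_one, aeval_C, LinearMap.sub_apply, Module.End.mul_apply,
    Module.algebraMap_end_apply, ← map_smul, h6]
  change v + gr R M v - v = gr R M v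
  abel

lemma coprime_of_cplus {M : C} (h : R.CPlus M) : ∃ (f : M ⟶ M) (P Q : K[X]), IsCoprime P Q ∧
    (∀ v, gr R M v = v → aeval (op R f) P v = 0) ∧
    (∀ v, gr R M v = - v → aeval (op R f) Q v = 0) := by
  have := R_charZero R
  rw [cplus_iff_range] at h
  obtain ⟨f, hf⟩ := h
  replace hf : op R f = gr R M := hf
  refine ⟨f, X - 1, X + 1, ⟨Polynomial.C (-2⁻¹), Polynomial.C 2⁻¹, ?_⟩, ?_, ?_⟩
  · have h2 : (2 : K)⁻¹ * 2 = 1 := inv_mul_cancel₀ two_ne_zero
    have : Polynomial.C (-2⁻¹ : K) * (X - 1) + Polynomial.C 2⁻¹ * (X + 1) =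
        Polynomial.C (2⁻¹ * 2) := by
      simp only [C_neg, C_mul]
      have : (Polynomial.C (2 : K)) = 2 := rfl
      rw [this]
      ring
    rw [this, h2, C_1]
  · intro v hv
    rw [map_sub, aeval_X, map_one, hf, LinearMap.sub_apply, hv]
    exact sub_self v
  · intro v hv
    rw [map_add, aeval_X, map_one, hf, LinearMap.add_apply, hv]
    exact neg_add_cancel v

end

end Q20.Cp
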