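import Pool.Agent.Q20.Cp.Cas

/-!
# Descent of the grading operator to rational coefficients, algebraically closed case
-/

set_option autoImplicit false

open Module Matrix Polynomial

namespace Q20.Cp

variable {K V : Type*} [Field K] [AddCommGroup V] [Module K V]

/-- The projector to a generalised eigenspace. -/
lemma exists_idem [Module.Finite K V] {f : End K V} {c : K} (hc : f.HasEigenvalue c) :
    ∃ p : K[X], aeval f p * aeval f p = aeval f p ∧ aeval f p ≠ 0 ∧
      IsNilpotent ((f - c • 1) * aeval f p) := by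
  have hne : f.charpoly ≠ 0 := (LinearMap.charpoly_monic f).ne_zero
  have hroot : f.charpoly.IsRoot c := (End.hasEigenvalue_iff_isRoot_charpoly f c).mp hc
  obtain ⟨q, hq, hnd⟩ := exists_eq_pow_rootMultiplicity_mul_and_not_dvd f.charpoly hne c
  set n := rootMultiplicity c f.charpoly with hn
  have hn1 : n ≠ 0 := by
    rw [hn]
    exact (rootMultiplicity_pos hne |>.mpr hroot).ne'
  have hcop : IsCoprime ((X - C c) ^ n) q :=
    (((irreducible_X_sub_C c).coprime_iff_not_dvd).mpr hnd).pow_left
  obtain ⟨u, v, huv⟩ := hcop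
  have hX : aeval f (X - C c) = f - c • 1 := by
    rw [map_sub, aeval_X, aeval_C, Algebra.algebraMap_eq_smul_one]
  have h0 : aeval f f.charpoly = 0 := LinearMap.aeval_self_charpoly f
  have h1 : aeval f (v * q) * aeval f (u * (X - C c) ^ n) = 0 := by
    rw [← map_mul]
    have : v * q * (u * (X - C c) ^ n) = v * u * f.charpoly := by
      rw [hq]
      ring
    rw [this, map_mul, h0, mul_zero]
  have h2 : aeval f (u * (X - C c) ^ n) + aeval f (v * q) = 1 := by
    rw [← map_add, huv, map_one]
  have hidem : aeval f (v * q) * aeval f (v * q) = aeval f (v * q) := by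
    have h3 : aeval f (v * q) * (aeval f (u * (X - C c) ^ n) + aeval f (v * q)) =
        aeval f (v * q) := by rw [h2, mul_one]
    rwa [mul_add, h1, zero_add] at h3
  refine ⟨v * q, hidem, ?_, n, ?_⟩
  · intro h3
    rw [h3, add_zero, map_mul, map_pow, hX] at h2
    obtain ⟨w, hw⟩ := hc.exists_hasEigenvector
    have h4 : (f - c • 1) w = 0 := by
      simp [hw.apply_eq_smul]
    have h5 : ((f - c • 1) ^ n) w = 0 := by
      obtain ⟨k, hk⟩ := Nat.exists_eq_succ_of_ne_zero hn1
      rw [hk, pow_succ, Module.End.mul_apply, h4, map_zero]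
    have h6 := LinearMap.congr_fun h2 w
    rw [Module.End.mul_apply, h5, map_zero] at h6
    exact hw.2 h6.symm
  · have hcomm : Commute (f - c • 1) (aeval f (v * q)) := by
      rw [← hX, commute_iff_eq, ← map_mul, mul_comm, map_mul]
    rw [hcomm.mul_pow]
    have h3 : aeval f (v * q) ^ n = aeval f (v * q) := by
      obtain ⟨k, hk⟩ := Nat.exists_eq_succ_of_ne_zero hn1
      rw [hk]
      exact IsIdempotentElem.pow_succ_eq k hidem
    rw [h3, ← hX, ← map_pow, ← map_mul]
    have : (X - C c) ^ n * (v * q) = v * f.charpoly := by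
      rw [hq]
      ring
    rw [this, map_mul, h0, mul_zero]

lemma nat_trace [Module.Finite K V] [CharZero K] {e : End K V} (he : e * e = e) :
    ∃ m : ℕ, LinearMap.trace K V e = m ∧ (m = 0 → e = 0) := by
  have h1 : IsIdempotentElem e := he
  refine ⟨finrank K (LinearMap.range e), (LinearMap.IsIdempotentElem.isProj_range e h1).trace,
    fun h => ?_⟩
  have h2 := (LinearMap.IsIdempotentElem.isProj_range e h1).trace
  rw [h, Nat.cast_zero] at h2
  exact (LinearMap.IsIdempotentElem.trace_eq_zero_iff h1).mp h2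

lemma nat_trace_matrix [CharZero K] {ι : Type} [Fintype ι] [DecidableEq ι] {e : Matrix ι ι K}
    (he : e * e = e) : ∃ m : ℕ, e.trace = m ∧ (m = 0 → e = 0) := by
  have h1 : toLin' e * toLin' e = toLin' e := by
    rw [Module.End.mul_eq_comp, ← toLin'_mul, he]
  obtain ⟨m, hm, hm0⟩ := nat_trace h1
  rw [trace_toLin'_eq] at hm
  exact ⟨m, hm, fun h => by simpa using hm0 h⟩

/-- The eigenvalues of the product of the Casimir operator and the grading operator are positive
rational numbers. -/
lemma eigen_pos [Module.Finite K V] [CharZero K] {ε : End K V} {A : Set (End K V)}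
    (hA : IsAlg ε A) (hε : ε * ε = 1) (hs : ε ∈ Submodule.span K A)
    {ι : Type} [Fintype ι] [DecidableEq ι] {a : ι → End K V} (ha : ∀ i, a i ∈ A)
    (hR : ∀ x ∈ Submodule.span K A, ∀ y ∈ Submodule.span K A, Res ε a x y = 0)
    (hdet : (gram ε a).det ≠ 0) {c : K} (hc : (ε * cas ε a).HasEigenvalue c) :
    ∃ q : ℚ, 0 < q ∧ c = q := by
  obtain ⟨p, h1, h2, h3⟩ := exists_idem hc
  set t := ε * cas ε a with ht
  set e := aeval t p with he
  have hts : t ∈ Submodule.span K A := span_mul hA hs (Submodule.subset_span (cas_mem hA ha))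
  have hes : e ∈ Submodule.span K A := span_aeval hA hts p
  obtain ⟨m, hm, hm0⟩ := nat_trace h1
  have hm1 : m ≠ 0 := fun h => h2 (hm0 h)
  have h4 : rho ε a e * rho ε a e = rho ε a e := by rw [← rho_mul hA ha hR hes hes, h1]
  obtain ⟨r, hr, hr0⟩ := nat_trace_matrix h4
  have h5 : LinearMap.trace K V (t * e) = r := by
    rw [← hr, trace_rho hA ha, B, ht, mul_assoc]
  have h6 : LinearMap.trace K V (t * e) = c * m := by
    have h7 : t * e = c • e + (t - c • 1) * e := by
      rw [sub_mul, smul_mul_assoc, one_mul]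
      abel
    rw [h7, map_add, map_smul, hm, smul_eq_mul,
      (LinearMap.isNilpotent_trace_of_isNilpotent h3).eq_zero, add_zero]
  have hr1 : r ≠ 0 := by
    intro h
    have h7 := radical_of_rho hA ha hR hdet hes hs (hr0 h)
    rw [B, ← mul_assoc, LinearMap.trace_mul_comm, ← mul_assoc, hε, one_mul, hm] at h7
    exact hm1 (by exact_mod_cast h7)
  refine ⟨(r : ℚ) / m, by positivity, ?_⟩
  have hmK : (m : K) ≠ 0 := by exact_mod_cast hm1
  rw [Rat.cast_div, Rat.cast_natCast, Rat.cast_natCast, eq_div_iff hmK, ← h6, h5]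

lemma coprime_aux (s t : Multiset ℚ) (hs : ∀ q ∈ s, 0 < q) (ht : ∀ q ∈ t, 0 < q) :
    IsCoprime ((s.map fun q => (X - C q : ℚ[X])).prod) ((t.map fun q => (-X - C q : ℚ[X])).prod) := by
  induction s using Multiset.induction_on with
  | empty => simpa using isCoprime_one_left
  | cons a s ih =>
    rw [Multiset.map_cons, Multiset.prod_cons]
    refine IsCoprime.mul_left ?_ (ih fun q hq => hs q (Multiset.mem_cons_of_mem hq))
    have ha := hs a (Multiset.mem_cons_self a s)
    clear ih hs
    induction t using Multiset.induction_on with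
    | empty => simpa using isCoprime_one_right
    | cons b t ih =>
      rw [Multiset.map_cons, Multiset.prod_cons]
      refine IsCoprime.mul_right ?_ (ih fun q hq => ht q (Multiset.mem_cons_of_mem hq))
      have hb := ht b (Multiset.mem_cons_self b t)
      have hab : a + b ≠ 0 := by positivity
      refine ⟨C (-(a + b)⁻¹), C (-(a + b)⁻¹), ?_⟩
      have h1 : (X - C a : ℚ[X]) + (-X - C b) = C (-(a + b)) := by
        rw [C_neg, C_add]
        ring
      rw [← mul_add, h1, ← C_mul, neg_mul_neg, inv_mul_cancel₀ hab, C_1]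

/-- The grading operator is in the algebra. -/
theorem core_closed [IsAlgClosed K] [Module.Finite K V] [CharZero K] {ε : End K V}
    {A : Set (End K V)} (hA : IsAlg ε A) (hε : ε * ε = 1) (hs : ε ∈ Submodule.span K A) :
    ε ∈ A := by
  obtain ⟨n, ⟨ι, _, _, a, hn, ha, hdet⟩, hmax⟩ := exists_max ε A
  have hR : ∀ x ∈ Submodule.span K A, ∀ y ∈ Submodule.span K A, Res ε a x y = 0 :=
    fun x hx y hy => Res_span hA hmax hn a ha hdet hx hy
  set θ := cas ε a with hθ
  set t := ε * θ with ht
  have hθA : θ ∈ A := cas_mem hA ha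
  have hcom : θ * ε = ε * θ := hA.comm _ hθA
  have hq : ∀ c : K, ∃ q : ℚ, c ∈ t.charpoly.roots → 0 < q ∧ c = q := by
    intro c
    by_cases h : c ∈ t.charpoly.roots
    · obtain ⟨q, hq⟩ := eigen_pos hA hε hs ha hR hdet
        ((End.hasEigenvalue_iff_isRoot_charpoly _ c).mpr (isRoot_of_mem_roots h))
      exact ⟨q, fun _ => hq⟩
    · exact ⟨0, fun h' => absurd h' h⟩
  choose q hq using hq
  set s : Multiset ℚ := t.charpoly.roots.map q with hsdef
  have hspos : ∀ x ∈ s, 0 < x := by
    intro x hx
    obtain ⟨c, hc, rfl⟩ := Multiset.mem_map.mp hx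
    exact (hq c hc).1
  set P : ℚ[X] := (s.map fun q => (X - C q : ℚ[X])).prod with hP
  set P' : ℚ[X] := (s.map fun q => (-X - C q : ℚ[X])).prod with hP'
  have hPcomp : P' = P.comp (-X) := by
    rw [hP, hP', multiset_prod_comp, Multiset.map_map (fun p : ℚ[X] => p.comp (-X))]
    refine congrArg Multiset.prod (Multiset.map_congr rfl fun x _ => ?_)
    simp
  have hPmap : P.map (algebraMap ℚ K) = t.charpoly := by
    rw [hP, Polynomial.map_multiset_prod, Multiset.map_map, hsdef, Multiset.map_map]
    have h1 := (IsAlgClosed.splits t.charpoly).eq_prod_roots_of_monic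
      (LinearMap.charpoly_monic t)
    rw [h1]
    congr 1
    rw [← h1]
    refine Multiset.map_congr rfl fun c hc => ?_
    have h2 := (hq c hc).2
    simp only [Function.comp_apply, Polynomial.map_sub, map_X, map_C]
    rw [eq_ratCast, ← h2]
  obtain ⟨u, v, huv⟩ := coprime_aux s s hspos hspos
  rw [← hP, ← hP'] at huv
  -- the powers of the Casimir operator on the even and the odd part
  have hp1 : ∀ k : ℕ, θ ^ k * (1 + ε) = t ^ k * (1 + ε) := by
    intro k
    induction k with
    | zero => rw [pow_zero, pow_zero]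
    | succ k ih =>
      have h1 : t * (1 + ε) = θ * (1 + ε) := by
        rw [ht, mul_add, mul_add, mul_one, mul_one, mul_assoc, hcom, ← mul_assoc, hε, one_mul]
        rw [add_comm]
      have h2 : Commute θ (1 + ε) := (Commute.one_right θ).add_right hcom
      rw [pow_succ, pow_succ, mul_assoc, mul_assoc, h1, h2.eq, ← mul_assoc, ih, mul_assoc]
  have hp2 : ∀ k : ℕ, θ ^ k * (1 - ε) = (-t) ^ k * (1 - ε) := by
    intro k
    induction k with
    | zero => rw [pow_zero, pow_zero]
    | succ k ih =>
      have h1 : (-t) * (1 - ε) = θ * (1 - ε) := by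
        rw [ht, mul_sub, mul_sub, mul_one, mul_one, neg_mul, mul_assoc, hcom, ← mul_assoc, hε,
          one_mul]
        abel
      have h2 : Commute θ (1 - ε) := (Commute.one_right θ).sub_right hcom
      rw [pow_succ, pow_succ, mul_assoc, mul_assoc, h1, h2.eq, ← mul_assoc, ih, mul_assoc]
  have hq1 : ∀ f : K[X], aeval θ f * (1 + ε) = aeval t f * (1 + ε) := by
    intro f
    rw [aeval_eq_sum_range, aeval_eq_sum_range, Finset.sum_mul, Finset.sum_mul]
    refine Finset.sum_congr rfl fun k _ => ?_
    rw [smul_mul_assoc, smul_mul_assoc, hp1]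
  have hq2 : ∀ f : K[X], aeval θ f * (1 - ε) = aeval (-t) f * (1 - ε) := by
    intro f
    rw [aeval_eq_sum_range, aeval_eq_sum_range, Finset.sum_mul, Finset.sum_mul]
    refine Finset.sum_congr rfl fun k _ => ?_
    rw [smul_mul_assoc, smul_mul_assoc, hp2]
  have hch : aeval t t.charpoly = 0 := LinearMap.aeval_self_charpoly t
  set φ : ℚ[X] →+* End K V := ((aeval θ : K[X] →ₐ[K] End K V) : K[X] →+* End K V).comp
    (mapRingHom (algebraMap ℚ K)) with hφ
  have hφa : ∀ f, φ f = aeval θ (f.map (algebraMap ℚ K)) := fun f => rfl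
  have hφA : ∀ f, φ f ∈ A := by
    intro f
    rw [hφa, aeval_eq_sum_range]
    refine hA.sum _ _ fun k _ => ?_
    rw [coeff_map, eq_ratCast]
    refine hA.smul _ _ ?_
    clear hp1 hp2 hq1 hq2
    induction k with
    | zero => rw [pow_zero]; exact hA.one
    | succ k ih => rw [pow_succ]; exact hA.mul _ (ih (by simp at *; omega)) _ hθA
  have e1 : φ P * (1 + ε) = 0 := by
    rw [hφa, hPmap, hq1, hch, zero_mul]
  have e2 : φ P' * (1 - ε) = 0 := by
    rw [hφa, hq2, hPcomp, Polynomial.map_comp, aeval_comp]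
    simp only [Polynomial.map_neg, map_X, map_neg, aeval_X, neg_neg]
    rw [hPmap, hch, zero_mul]
  have e3 : φ u * φ P + φ v * φ P' = 1 := by
    rw [← map_mul, ← map_mul, ← map_add, huv, map_one]
  have e4 : (φ v * φ P' - φ u * φ P) * (1 + ε) = 1 + ε := by
    have h1 : φ v * φ P' - φ u * φ P = 1 - 2 • (φ u * φ P) := by
      rw [← e3, two_nsmul]
      abel
    rw [h1, sub_mul, one_mul, smul_mul_assoc, mul_assoc, e1, mul_zero, smul_zero, sub_zero]
  have e5 : (φ v * φ P' - φ u * φ P) * (1 - ε) = -(1 - ε) := by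
    have h1 : φ v * φ P' - φ u * φ P = 2 • (φ v * φ P') - 1 := by
      rw [← e3, two_nsmul]
      abel
    rw [h1, sub_mul, one_mul, smul_mul_assoc, mul_assoc, e2, mul_zero, smul_zero, zero_sub]
  have e6 : (2 : K) • (φ v * φ P' - φ u * φ P) = (2 : K) • ε := by
    have h1 := congrArg₂ (· + ·) e4 e5
    simp only [← mul_add] at h1
    rw [two_smul, two_smul]
    have h2 : (1 + ε) + (1 - ε) = (1 : End K V) + 1 := by abel
    have h3 : (1 + ε) + -(1 - ε) = ε + ε := by abel
    rw [h2, h3, mul_add, mul_one] at h1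
    exact h1
  have e7 : φ v * φ P' - φ u * φ P = ε := by
    have h1 := congrArg (fun x => (2 : K)⁻¹ • x) e6
    simpa only [smul_smul, inv_mul_cancel₀ (two_ne_zero : (2 : K) ≠ 0), one_smul] using h1
  rw [← e7, ← map_mul, ← map_mul, ← map_sub]
  exact hφA _

end Q20.Cp
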