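import Pool.Agent.Q20.Cp.Closed

/-!
# Descent of the grading operator to rational coefficients
-/

set_option autoImplicit false

open Module TensorProduct

namespace Q20.Cp

variable {K V : Type*} [Field K] [AddCommGroup V] [Module K V]

lemma isAlg_baseChange [Module.Finite K V] (L : Type*) [Field L] [Algebra K L]
    {ε : End K V} {A : Set (End K V)} (hA : IsAlg ε A) :
    IsAlg (ε.baseChange L) ((fun f : End K V => (f.baseChange L : End L (L ⊗[K] V))) '' A) := by
  refine ⟨⟨1, hA.one, LinearMap.baseChange_one K V⟩, ?_, ?_, ?_, ?_, ?_⟩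
  · rintro _ ⟨a, ha, rfl⟩ _ ⟨b, hb, rfl⟩
    exact ⟨a + b, hA.add a ha b hb, LinearMap.baseChange_add a b⟩
  · rintro _ ⟨a, ha, rfl⟩ _ ⟨b, hb, rfl⟩
    exact ⟨a * b, hA.mul a ha b hb, LinearMap.baseChange_mul a b⟩
  · rintro q _ ⟨a, ha, rfl⟩
    refine ⟨(q : K) • a, hA.smul q a ha, ?_⟩
    change ((q : K) • a).baseChange L = (q : L) • a.baseChange L
    rw [LinearMap.baseChange_smul, ← map_ratCast (algebraMap K L) q, algebraMap_smul]
  · rintro _ ⟨a, ha, rfl⟩
    change a.baseChange L * ε.baseChange L = ε.baseChange L * a.baseChange L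
    rw [← LinearMap.baseChange_mul, ← LinearMap.baseChange_mul, hA.comm a ha]
  · rintro _ ⟨a, ha, rfl⟩
    obtain ⟨q, hq⟩ := hA.rat a ha
    refine ⟨q, ?_⟩
    change LinearMap.trace L _ (ε.baseChange L * a.baseChange L) = _
    rw [← LinearMap.baseChange_mul, LinearMap.trace_baseChange, hq, map_ratCast]

lemma span_baseChange (L : Type*) [Field L] [Algebra K L] {A : Set (End K V)} {x : End K V}
    (h : x ∈ Submodule.span K A) : (x.baseChange L : End L (L ⊗[K] V)) ∈
      Submodule.span L ((fun f : End K V => (f.baseChange L : End L (L ⊗[K] V))) '' A) := by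
  induction h using Submodule.span_induction with
  | mem x hx => exact Submodule.subset_span ⟨x, hx, rfl⟩
  | zero => rw [LinearMap.baseChange_zero]; exact zero_mem _
  | add x y _ _ hx hy => rw [LinearMap.baseChange_add]; exact add_mem hx hy
  | smul c x _ hx =>
    rw [LinearMap.baseChange_smul, ← algebraMap_smul L c]
    exact Submodule.smul_mem _ _ hx

lemma core_ext [Module.Finite K V] (L : Type*) [Field L] [Algebra K L] [IsAlgClosed L]
    [CharZero L] {ε : End K V} {A : Set (End K V)} (hA : IsAlg ε A) (hε : ε * ε = 1)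
    (hs : ε ∈ Submodule.span K A) : ε ∈ A := by
  have hε' : (ε.baseChange L : End L (L ⊗[K] V)) * ε.baseChange L = 1 := by
    rw [← LinearMap.baseChange_mul, hε, LinearMap.baseChange_one]
  obtain ⟨a, ha, h⟩ := core_closed (isAlg_baseChange L hA) hε' (span_baseChange L hs)
  have hinj : Function.Injective (LinearMap.baseChangeHom K L V V) :=
    LinearMap.baseChangeHom_injective K V L
  rw [← hinj h]
  exact ha

/-- If an operator `ε` with square one is a `K`-linear combination of the elements of `A`, then
it is an element of `A`. -/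
theorem core [Module.Finite K V] [CharZero K] {ε : End K V}
    {A : Set (End K V)} (hA : IsAlg ε A) (hε : ε * ε = 1) (hs : ε ∈ Submodule.span K A) :
    ε ∈ A := by
  have : CharZero (AlgebraicClosure K) :=
    charZero_of_injective_algebraMap (FaithfulSMul.algebraMap_injective K _)
  exact core_ext (AlgebraicClosure K) hA hε hs

end Q20.Cp
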