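import Pool.Agent.Q20.Cp.Cat

/-!
# The sign conjecture, coefficients and numerical dimension: the statement
-/

set_option autoImplicit false
set_option linter.unusedSectionVars false

open CategoryTheory Limits MonoidalCategory Polynomial

namespace Q20.Cp

open Pool.Agent.Y112.SR

universe v u w w'

/-- Every endomorphism of the unit is a rational multiple of the identity. -/
def RationalUnit (C : Type u) [Category.{v} C] [Preadditive C] [Linear ℚ C]
    [MonoidalCategory C] : Prop :=
  ∀ z : 𝟙_ C ⟶ 𝟙_ C, ∃ q : ℚ, z = q • 𝟙 (𝟙_ C)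

section

variable {C : Type u} [Category.{v} C] [Preadditive C] [Linear ℚ C] [MonoidalCategory C]
  [SymmetricCategory C] {K : Type w} [Field K] (R : SuperRealisation C K)

/-- The operators of the realisation of `M` which are algebraic with coefficients in `K`: the
`K`-linear combinations of the images of the endomorphisms of `M`. -/
def KAlg (M : C) : Submodule K (R.H.obj M ⟶ R.H.obj M) :=
  Submodule.span K (Set.range fun f : M ⟶ M => R.H.map f)

/-- The operator `T` separates the even and the odd part: it is annihilated by coprime polynomials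
`P` and `Q` on them. -/
def Separates {M : C} (T : Module.End K (R.H.obj M)) : Prop :=
  ∃ P Q : K[X], IsCoprime P Q ∧ (∀ x, (R.par M).hom x = x → aeval T P x = 0) ∧
    ∀ x, (R.par M).hom x = - x → aeval T Q x = 0

/-- The dimension of the realisation of `M`. -/
noncomputable def dimH (M : C) : ℕ := Module.finrank K (R.H.obj M)

variable [RightRigidCategory C]

theorem main_tfae (hC : RationalUnit C) (M : C) :
    List.TFAE [R.CPlus M, R.par M ∈ KAlg R M, ∃ T ∈ KAlg R M, Separates R (M := M) T.hom,
      dimH R M = numDim M] := by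
  have hspan : ∀ T ∈ Submodule.span K (Set.range fun f : M ⟶ M => R.H.map f),
      T.hom ∈ Submodule.span K (Set.range fun f : M ⟶ M => op R f) := by
    intro T hT
    have h1 := Submodule.mem_map_of_mem
      (f := (ModuleCat.homLinearEquiv (S := K) (M := R.H.obj M) (N := R.H.obj M)).toLinearMap) hT
    rw [Submodule.map_span, ← Set.range_comp] at h1
    exact h1
  tfae_have 1 → 2 := by
    intro h
    rw [cplus_iff] at h
    obtain ⟨g, hg⟩ := h
    exact Submodule.subset_span ⟨g, hg⟩
  tfae_have 2 → 1 := fun h => cplus_of_span R hC M (hspan _ h)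
  tfae_have 1 → 3 := by
    intro h
    obtain ⟨f, P, Q, h, hP, hQ⟩ := coprime_of_cplus R h
    exact ⟨R.H.map f, Submodule.subset_span ⟨f, rfl⟩, P, Q, h, hP, hQ⟩
  tfae_have 3 → 1 := by
    rintro ⟨T, hT, P, Q, h, hP, hQ⟩
    exact cplus_of_coprime R hC (hspan _ hT) P Q h hP hQ
  tfae_have 1 ↔ 4 := numDim_iff R hC M
  tfae_finish

end

end Q20.Cp
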