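import Pool.Agent.Q20.Cp.Sep
import Pool.Agent.Q20.Cp.Stmt

/-!
# The Kunneth conjecture does not depend on the coefficient field
-/

set_option autoImplicit false
set_option linter.unusedSectionVars false

open CategoryTheory Limits MonoidalCategory Module

namespace Q20.Cp

open Pool.Agent.Y112.SR

universe v u w w' w''

section

variable {C : Type u} [Category.{v} C] [Preadditive C] [Linear ℚ C] [MonoidalCategory C]
  [SymmetricCategory C] {K : Type w} [Field K] (R : SuperRealisation C K)

/-- The Kunneth projectors of `M` are algebraic with coefficients in `F`, where `L` is a field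
which contains `F` and the field `K` of the realisation: after extension of scalars to `L` the
operator `π⁺ - π⁻` is a linear combination, with coefficients in `F`, of operators induced by
endomorphisms of `M`. (The sum and the identity being algebraic, this is the same for `π⁺` and
for `π⁻`.) -/
def AlgebraicOver (F : Type w') (L : Type w'') [Field F] [Field L] [Algebra K L] [Algebra F L]
    (M : C) : Prop :=
  ∃ (s : Finset (M ⟶ M)) (c : (M ⟶ M) → F),
    (gr R M).baseChange L = ∑ f ∈ s, algebraMap F L (c f) • (op R f).baseChange L

/-- Every subspace of the realisation of `M` which is stable under all endomorphisms of `M` is the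
direct sum of its even and its odd part, that is, stable under the grading operator. -/
def StableGraded (M : C) : Prop :=
  ∀ N : Submodule K (R.H.obj M), (∀ f : M ⟶ M, ∀ x ∈ N, op R f x ∈ N) → ∀ x ∈ N, gr R M x ∈ N

/-- For every even vector `x` and every odd vector `y` of the realisation some linear combination,
with coefficients in `K`, of operators induced by endomorphisms of `M` fixes `x` and kills `y`. -/
def PointwiseSeparated (M : C) : Prop :=
  ∀ x y : R.H.obj M, gr R M x = x → gr R M y = - y →
    ∃ T ∈ Submodule.span K (Set.range fun f : M ⟶ M => op R f), T x = x ∧ T y = 0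

variable [RightRigidCategory C]

theorem field_tfae (hC : RationalUnit C) (M : C) (F : Type w') (L : Type w'') [Field F] [Field L]
    [Algebra K L] [Algebra F L] :
    List.TFAE [R.CPlus M, AlgebraicOver R F L M, StableGraded R M, PointwiseSeparated R M] := by
  have := R_charZero R
  have := R.finite M
  have hA := isAlg R hC M
  have : CharZero L := charZero_of_injective_algebraMap (FaithfulSMul.algebraMap_injective K L)
  have : CharZero F := by
    refine ⟨fun m n h => ?_⟩
    have h1 := congrArg (algebraMap F L) h
    simpa using h1
  tfae_have 1 → 2 := by
    intro h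
    rw [cplus_iff_range] at h
    obtain ⟨f, hf⟩ := h
    refine ⟨{f}, fun _ => 1, ?_⟩
    rw [Finset.sum_singleton, map_one, one_smul, ← hf]
  tfae_have 2 → 1 := by
    rintro ⟨s, c, h⟩
    rw [cplus_iff_range]
    refine core_over L hA (gr_sq R M) ?_
    rw [h]
    exact Submodule.sum_mem _ fun f _ => Submodule.smul_mem _ _
      (Submodule.subset_span ⟨op R f, ⟨f, rfl⟩, rfl⟩)
  tfae_have 1 → 3 := by
    intro h N hN
    rw [cplus_iff_range] at h
    refine stable_of_span (Submodule.subset_span h) N ?_
    rintro _ ⟨f, rfl⟩
    exact hN f
  tfae_have 3 → 4 := by
    intro h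
    refine pointwise_of_stable hA fun N hN => h N fun f => hN _ ⟨f, rfl⟩
  tfae_have 4 → 1 := fun h => cplus_of_span R hC M (span_of_pointwise hA (gr_sq R M) h)
  tfae_finish

end

end Q20.Cp
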