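import Mathlib

/-!
# Maximal Gram families for the super trace form

`A` is a set of operators of a finite dimensional vector space `V` over a field `K` of
characteristic zero, closed under sums, products and rational multiples, and `ε` is an operator
which commutes with `A`, such that the traces of `ε a`, `a ∈ A`, are rational.
-/

set_option autoImplicit false

open Module Matrix

namespace Q20.Cp

variable {K V : Type*} [Field K] [AddCommGroup V] [Module K V]

/-- The super trace form. -/
noncomputable def B (ε x y : End K V) : K := LinearMap.trace K V (ε * (x * y))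

lemma B_add_left (ε x x' y : End K V) : B ε (x + x') y = B ε x y + B ε x' y := by
  simp [B, add_mul, mul_add]

lemma B_add_right (ε x y y' : End K V) : B ε x (y + y') = B ε x y + B ε x y' := by
  simp [B, mul_add]

lemma B_smul_left (ε x y : End K V) (c : K) : B ε (c • x) y = c * B ε x y := by
  simp [B]

lemma B_smul_right (ε x y : End K V) (c : K) : B ε x (c • y) = c * B ε x y := by
  simp [B]

lemma B_zero_left (ε y : End K V) : B ε 0 y = 0 := by simp [B]

lemma B_zero_right (ε x : End K V) : B ε x 0 = 0 := by simp [B]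

lemma B_assoc (ε x y z : End K V) : B ε (x * y) z = B ε x (y * z) := by
  simp [B, mul_assoc]

lemma B_symm {ε x : End K V} (h : x * ε = ε * x) (y : End K V) : B ε x y = B ε y x := by
  rw [B, B, ← mul_assoc, ← mul_assoc, ← h, mul_assoc, LinearMap.trace_mul_comm]

lemma B_sum_left {ι : Type*} (s : Finset ι) (ε : End K V) (f : ι → End K V) (y : End K V) :
    B ε (∑ i ∈ s, f i) y = ∑ i ∈ s, B ε (f i) y := by
  classical
  induction s using Finset.induction_on with
  | empty => simp [B_zero_left]
  | insert a s ha ih => rw [Finset.sum_insert ha, Finset.sum_insert ha, B_add_left, ih]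

/-- The set of operators. -/
structure IsAlg (ε : End K V) (A : Set (End K V)) : Prop where
  one : 1 ∈ A
  add : ∀ a ∈ A, ∀ b ∈ A, a + b ∈ A
  mul : ∀ a ∈ A, ∀ b ∈ A, a * b ∈ A
  smul : ∀ q : ℚ, ∀ a ∈ A, (q : K) • a ∈ A
  comm : ∀ a ∈ A, a * ε = ε * a
  rat : ∀ a ∈ A, ∃ q : ℚ, LinearMap.trace K V (ε * a) = q

lemma IsAlg.zero {ε : End K V} {A : Set (End K V)} (h : IsAlg ε A) : 0 ∈ A := by
  have := h.smul 0 1 h.one
  simpa using this

lemma IsAlg.sum {ε : End K V} {A : Set (End K V)} (h : IsAlg ε A) {ι : Type*} (s : Finset ι)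
    (f : ι → End K V) (hf : ∀ i ∈ s, f i ∈ A) : ∑ i ∈ s, f i ∈ A := by
  classical
  induction s using Finset.induction_on with
  | empty => simpa using h.zero
  | insert a s ha ih =>
    rw [Finset.sum_insert ha]
    exact h.add _ (hf a (Finset.mem_insert_self a s)) _
      (ih fun i hi => hf i (Finset.mem_insert_of_mem hi))

/-- The Gram matrix of a family. -/
noncomputable def gram (ε : End K V) {ι : Type} (a : ι → End K V) : Matrix ι ι K :=
  of fun i j => B ε (a i) (a j)

/-- There is a family of size `n` with invertible Gram matrix. -/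
def HasFam (ε : End K V) (A : Set (End K V)) (n : ℕ) : Prop :=
  ∃ (ι : Type) (_ : Fintype ι) (_ : DecidableEq ι) (a : ι → End K V), Fintype.card ι = n ∧
    (∀ i, a i ∈ A) ∧ (gram ε a).det ≠ 0

lemma hasFam_bound [Module.Finite K V] {ε : End K V} {A : Set (End K V)} {n : ℕ}
    (h : HasFam ε A n) : n ≤ finrank K (End K V) := by
  obtain ⟨ι, _, _, a, hn, -, hdet⟩ := h
  have hli : LinearIndependent K a := by
    rw [Fintype.linearIndependent_iff]
    intro g hg
    by_contra hne
    push Not at hne
    apply hdet
    have h1 : (gram ε a)ᵀ *ᵥ g = 0 := by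
      funext j
      simp only [mulVec, dotProduct, transpose_apply, gram, of_apply, Pi.zero_apply]
      have h2 : ∑ i, B ε (a i) (a j) * g i = B ε (∑ i, g i • a i) (a j) := by
        rw [B_sum_left]
        exact Finset.sum_congr rfl fun i _ => by rw [B_smul_left, mul_comm]
      rw [h2, hg, B_zero_left]
    rw [← det_transpose]
    exact exists_mulVec_eq_zero_iff.mp ⟨g, fun h0 => by
      obtain ⟨i, hi⟩ := hne
      exact hi (congrFun h0 i), h1⟩
  have := hli.fintype_card_le_finrank
  omega

lemma exists_max [Module.Finite K V] (ε : End K V) (A : Set (End K V)) :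
    ∃ n, HasFam ε A n ∧ ¬ HasFam ε A (n + 1) := by
  by_contra hcon
  push Not at hcon
  have h0 : HasFam ε A 0 := by
    refine ⟨Fin 0, inferInstance, inferInstance, Fin.elim0, by simp, fun i => i.elim0, ?_⟩
    rw [det_isEmpty]
    exact one_ne_zero
  have hall : ∀ n, HasFam ε A n := by
    intro n
    induction n with
    | zero => exact h0
    | succ n ih => exact hcon n ih
  have := hasFam_bound (hall (finrank K (End K V) + 1))
  omega

/-- The residual form. -/
noncomputable def Res (ε : End K V) {ι : Type} [Fintype ι] [DecidableEq ι] (a : ι → End K V)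
    (x y : End K V) : K :=
  B ε x y - ∑ l, ∑ j, B ε x (a l) * (gram ε a)⁻¹ l j * B ε (a j) y

lemma Res_add_left (ε : End K V) {ι : Type} [Fintype ι] [DecidableEq ι] (a : ι → End K V)
    (x x' y : End K V) : Res ε a (x + x') y = Res ε a x y + Res ε a x' y := by
  simp only [Res, B_add_left, add_mul, Finset.sum_add_distrib]
  ring

lemma Res_add_right (ε : End K V) {ι : Type} [Fintype ι] [DecidableEq ι] (a : ι → End K V)
    (x y y' : End K V) : Res ε a x (y + y') = Res ε a x y + Res ε a x y' := by
  simp only [Res, B_add_right, mul_add, Finset.sum_add_distrib]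
  ring

lemma Res_smul_left (ε : End K V) {ι : Type} [Fintype ι] [DecidableEq ι] (a : ι → End K V)
    (x y : End K V) (c : K) : Res ε a (c • x) y = c * Res ε a x y := by
  simp only [Res, B_smul_left, mul_sub, Finset.mul_sum]
  congr 1
  exact Finset.sum_congr rfl fun l _ => Finset.sum_congr rfl fun j _ => by ring

lemma Res_smul_right (ε : End K V) {ι : Type} [Fintype ι] [DecidableEq ι] (a : ι → End K V)
    (x y : End K V) (c : K) : Res ε a x (c • y) = c * Res ε a x y := by
  simp only [Res, B_smul_right, mul_sub, Finset.mul_sum]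
  congr 1
  exact Finset.sum_congr rfl fun l _ => Finset.sum_congr rfl fun j _ => by ring

lemma Res_zero_left (ε : End K V) {ι : Type} [Fintype ι] [DecidableEq ι] (a : ι → End K V)
    (y : End K V) : Res ε a 0 y = 0 := by
  simp [Res, B_zero_left]

lemma Res_zero_right (ε : End K V) {ι : Type} [Fintype ι] [DecidableEq ι] (a : ι → End K V)
    (x : End K V) : Res ε a x 0 = 0 := by
  simp [Res, B_zero_right]

lemma gram_symm {ε : End K V} {A : Set (End K V)} (hA : IsAlg ε A) {ι : Type}
    (a : ι → End K V) (ha : ∀ i, a i ∈ A) : (gram ε a)ᵀ = gram ε a := by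
  ext i j
  simp only [transpose_apply, gram, of_apply]
  exact B_symm (hA.comm _ (ha j)) _

lemma Res_symm {ε : End K V} {A : Set (End K V)} (hA : IsAlg ε A) {ι : Type} [Fintype ι]
    [DecidableEq ι] (a : ι → End K V) (ha : ∀ i, a i ∈ A) {x y : End K V} (hx : x ∈ A)
    : Res ε a x y = Res ε a y x := by
  have hg : ∀ l j, (gram ε a)⁻¹ l j = (gram ε a)⁻¹ j l := by
    intro l j
    have h1 : ((gram ε a)⁻¹)ᵀ = (gram ε a)⁻¹ := by
      rw [transpose_nonsing_inv, gram_symm hA a ha]
    exact congrFun (congrFun h1 j) l
  rw [Res, Res, B_symm (hA.comm x hx) y, Finset.sum_comm]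
  congr 1
  refine Finset.sum_congr rfl fun l _ => Finset.sum_congr rfl fun j _ => ?_
  rw [B_symm (hA.comm x hx) (a j), B_symm (hA.comm _ (ha l)) y, hg j l]
  ring

lemma Res_self {ε : End K V} {A : Set (End K V)} {n : ℕ} (hmax : ¬ HasFam ε A (n + 1))
    {ι : Type} [Fintype ι] [DecidableEq ι] (hn : Fintype.card ι = n)
    (a : ι → End K V) (ha : ∀ i, a i ∈ A) (hdet : (gram ε a).det ≠ 0) {x : End K V}
    (hx : x ∈ A) : Res ε a x x = 0 := by
  by_contra hne
  apply hmax
  refine ⟨ι ⊕ Unit, inferInstance, inferInstance, Sum.elim a fun _ => x, by simp [hn], ?_, ?_⟩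
  · rintro (i | i)
    · exact ha i
    · exact hx
  · have hG : IsUnit (gram ε a).det := isUnit_iff_ne_zero.mpr hdet
    have h1 : gram ε (Sum.elim a fun _ => x) = fromBlocks (gram ε a)
        (of fun i (_ : Unit) => B ε (a i) x) (of fun (_ : Unit) j => B ε x (a j))
        (of fun (_ _ : Unit) => B ε x x) := by
      ext (i | i) (j | j) <;> rfl
    let _ := invertibleOfIsUnitDet _ hG
    rw [h1, det_fromBlocks₁₁, invOf_eq_nonsing_inv]
    refine mul_ne_zero hdet ?_
    rw [det_unique]
    have h2 : ((of fun (_ _ : Unit) => B ε x x) - (of fun (_ : Unit) j => B ε x (a j)) *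
        (gram ε a)⁻¹ * (of fun i (_ : Unit) => B ε (a i) x)) default default =
        Res ε a x x := by
      simp only [Matrix.sub_apply, of_apply, Matrix.mul_apply, Finset.sum_mul, Res]
      rw [Finset.sum_comm]
    rw [h2]
    exact hne

lemma Res_mem [CharZero K] {ε : End K V} {A : Set (End K V)} (hA : IsAlg ε A) {n : ℕ}
    (hmax : ¬ HasFam ε A (n + 1))
    {ι : Type} [Fintype ι] [DecidableEq ι] (hn : Fintype.card ι = n)
    (a : ι → End K V) (ha : ∀ i, a i ∈ A) (hdet : (gram ε a).det ≠ 0) {x y : End K V}
    (hx : x ∈ A) (hy : y ∈ A) : Res ε a x y = 0 := by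
  have h1 := Res_self hmax hn a ha hdet (hA.add x hx y hy)
  rw [Res_add_left, Res_add_right, Res_add_right, Res_self hmax hn a ha hdet hx,
    Res_self hmax hn a ha hdet hy, Res_symm hA a ha hy] at h1
  have h2 : (2 : K) * Res ε a x y = 0 := by linear_combination h1
  exact (mul_eq_zero.mp h2).resolve_left two_ne_zero

lemma Res_span [CharZero K] {ε : End K V} {A : Set (End K V)} (hA : IsAlg ε A) {n : ℕ}
    (hmax : ¬ HasFam ε A (n + 1))
    {ι : Type} [Fintype ι] [DecidableEq ι] (hn : Fintype.card ι = n)
    (a : ι → End K V) (ha : ∀ i, a i ∈ A) (hdet : (gram ε a).det ≠ 0) {x y : End K V}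
    (hx : x ∈ Submodule.span K A) (hy : y ∈ Submodule.span K A) : Res ε a x y = 0 := by
  have h1 : ∀ y ∈ A, ∀ x ∈ Submodule.span K A, Res ε a x y = 0 := by
    intro y hy x hx
    induction hx using Submodule.span_induction with
    | mem x hx => exact Res_mem hA hmax hn a ha hdet hx hy
    | zero => exact Res_zero_left ε a y
    | add x x' _ _ h h' => rw [Res_add_left, h, h', add_zero]
    | smul c x _ h => rw [Res_smul_left, h, mul_zero]
  induction hy using Submodule.span_induction with
  | mem y hy => exact h1 y hy x hx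
  | zero => exact Res_zero_right ε a x
  | add y y' _ _ h h' => rw [Res_add_right, h, h', add_zero]
  | smul c y _ h => rw [Res_smul_right, h, mul_zero]

lemma span_mul {ε : End K V} {A : Set (End K V)} (hA : IsAlg ε A) {x y : End K V}
    (hx : x ∈ Submodule.span K A) (hy : y ∈ Submodule.span K A) :
    x * y ∈ Submodule.span K A := by
  have h1 : ∀ y ∈ A, ∀ x ∈ Submodule.span K A, x * y ∈ Submodule.span K A := by
    intro y hy x hx
    induction hx using Submodule.span_induction with
    | mem x hx => exact Submodule.subset_span (hA.mul x hx y hy)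
    | zero => simp
    | add x x' _ _ h h' => rw [add_mul]; exact add_mem h h'
    | smul c x _ h => rw [smul_mul_assoc]; exact Submodule.smul_mem _ c h
  induction hy using Submodule.span_induction with
  | mem y hy => exact h1 y hy x hx
  | zero => simp
  | add y y' _ _ h h' => rw [mul_add]; exact add_mem h h'
  | smul c y _ h => rw [mul_smul_comm]; exact Submodule.smul_mem _ c h

lemma span_pow {ε : End K V} {A : Set (End K V)} (hA : IsAlg ε A) {x : End K V}
    (hx : x ∈ Submodule.span K A) (k : ℕ) : x ^ k ∈ Submodule.span K A := by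
  induction k with
  | zero => rw [pow_zero]; exact Submodule.subset_span hA.one
  | succ k ih => rw [pow_succ]; exact span_mul hA ih hx

lemma span_aeval {ε : End K V} {A : Set (End K V)} (hA : IsAlg ε A) {x : End K V}
    (hx : x ∈ Submodule.span K A) (p : Polynomial K) :
    Polynomial.aeval x p ∈ Submodule.span K A := by
  rw [Polynomial.aeval_eq_sum_range]
  exact Submodule.sum_mem _ fun i _ => Submodule.smul_mem _ _ (span_pow hA hx i)

end Q20.Cp
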