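import Pool.Agent.Q20.Cp.Core

/-!
# Stable subspaces and separation of vectors

The argument for the separation of two subspaces follows the starting file `TH133/PW/Kun.lean`.
-/

set_option autoImplicit false

open Module

namespace Q20.Cp

variable {K V : Type*} [Field K] [AddCommGroup V] [Module K V]

/-- Tominaga's argument for a set of operators which need not be a left ideal. -/
theorem tominaga {Am : Submodule K (End K V)} {U : Submodule K V}
    (h2 : ∀ a ∈ Am, ∀ b ∈ Am, a * (1 - b) ∈ Am) (hU : ∀ b ∈ Am, ∀ y ∈ U, b y ∈ U)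
    (h : ∀ y ∈ U, ∃ a ∈ Am, a y = y) (m : ℕ) :
    ∀ y : Fin m → V, (∀ i, y i ∈ U) → ∃ a ∈ Am, ∀ i, a (y i) = y i := by
  induction m with
  | zero => exact fun y _ => ⟨0, Submodule.zero_mem _, fun i => i.elim0⟩
  | succ m ih =>
    intro y hy
    obtain ⟨a₁, ha₁, h₁⟩ := h (y 0) (hy 0)
    obtain ⟨a₂, ha₂, h₂⟩ := ih (fun i => (1 - a₁) (y i.succ))
      (fun i => Submodule.sub_mem _ (hy _) (hU _ ha₁ _ (hy _)))
    refine ⟨a₁ + a₂ * (1 - a₁), Submodule.add_mem _ ha₁ (h2 _ ha₂ _ ha₁), ?_⟩
    intro i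
    refine Fin.cases ?_ (fun i => ?_) i
    · have e : (1 - a₁) (y 0) = 0 := by
        rw [LinearMap.sub_apply, Module.End.one_apply, h₁, sub_self]
      rw [LinearMap.add_apply, Module.End.mul_apply, e, map_zero, add_zero, h₁]
    · have := h₂ i
      rw [LinearMap.add_apply, Module.End.mul_apply, this, LinearMap.sub_apply,
        Module.End.one_apply, add_sub_cancel]

/-- One operator which is the identity on `U`. -/
theorem tominaga_uniform {Am : Submodule K (End K V)} {U : Submodule K V}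
    (hfg : U.FG) (h2 : ∀ a ∈ Am, ∀ b ∈ Am, a * (1 - b) ∈ Am)
    (hU : ∀ b ∈ Am, ∀ y ∈ U, b y ∈ U) (h : ∀ y ∈ U, ∃ a ∈ Am, a y = y) :
    ∃ a ∈ Am, ∀ y ∈ U, a y = y := by
  obtain ⟨m, s, hs⟩ := Submodule.fg_iff_exists_fin_generating_family.1 hfg
  have hsU : ∀ i, s i ∈ U := fun i => hs ▸ Submodule.subset_span ⟨i, rfl⟩
  obtain ⟨a, ha, h'⟩ := tominaga h2 hU h m s hsU
  refine ⟨a, ha, fun y hy => ?_⟩
  have : U ≤ LinearMap.eqLocus a 1 := by
    rw [← hs, Submodule.span_le]
    rintro _ ⟨i, rfl⟩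
    exact h' i
  exact this hy

/-- Separation of two subspaces, from the separation of single vectors. -/
theorem separate {A : Submodule K (End K V)} (h1 : (1 : End K V) ∈ A)
    (hmul : ∀ a ∈ A, ∀ b ∈ A, a * b ∈ A) {U U' : Submodule K V} (hfg : U.FG) (hfg' : U'.FG)
    (hU : ∀ b ∈ A, ∀ y ∈ U, b y ∈ U) (hU' : ∀ b ∈ A, ∀ y ∈ U', b y ∈ U')
    (h : ∀ y ∈ U, ∀ y' ∈ U', ∃ a ∈ A, a y = y ∧ a y' = 0) :
    ∃ c ∈ A, (∀ y ∈ U, c y = 0) ∧ ∀ y' ∈ U', c y' = y' := by
  -- the first step
  have step1 : ∀ y' ∈ U', ∃ a ∈ A, (∀ y ∈ U, a y = y) ∧ a y' = 0 := by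
    intro y' hy'
    obtain ⟨a, ha, hay⟩ := tominaga_uniform
      (Am := A ⊓ LinearMap.ker (LinearMap.applyₗ (R := K) (M := V) (M₂ := V) y')) (U := U) hfg
      (by
        rintro a ⟨ha, ha'⟩ b ⟨hb, hb'⟩
        have ha'' : a y' = 0 := ha'
        have hb'' : b y' = 0 := hb'
        refine ⟨hmul _ ha _ (Submodule.sub_mem _ h1 hb), ?_⟩
        change (a * (1 - b)) y' = 0
        rw [Module.End.mul_apply, LinearMap.sub_apply, Module.End.one_apply, hb'', sub_zero, ha''])
      (fun b hb y hy => hU b hb.1 y hy)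
      (by
        intro y hy
        obtain ⟨a, ha, h1, h2⟩ := h y hy y' hy'
        exact ⟨a, ⟨ha, h2⟩, h1⟩)
    exact ⟨a, ha.1, hay, ha.2⟩
  -- the second step
  obtain ⟨c, hc, hcy⟩ := tominaga_uniform
    (Am := A ⊓ ⨅ y ∈ U, LinearMap.ker (LinearMap.applyₗ (R := K) (M := V) (M₂ := V) y))
    (U := U') hfg'
    (by
      rintro a ⟨ha, ha'⟩ b ⟨hb, hb'⟩
      refine ⟨hmul _ ha _ (Submodule.sub_mem _ h1 hb), ?_⟩
      have ha'' : ∀ y ∈ U, a y = 0 := by simpa using ha'
      have hb'' : ∀ y ∈ U, b y = 0 := by simpa using hb'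
      have : ∀ y ∈ U, (a * (1 - b)) y = 0 := by
        intro y hy
        rw [Module.End.mul_apply, LinearMap.sub_apply, Module.End.one_apply, hb'' y hy, sub_zero,
          ha'' y hy]
      simpa using this)
    (fun b hb y hy => hU' b hb.1 y hy)
    (by
      intro y' hy'
      obtain ⟨a, ha, h2, h3⟩ := step1 y' hy'
      refine ⟨1 - a, ⟨Submodule.sub_mem _ h1 ha, ?_⟩, ?_⟩
      · have : ∀ y ∈ U, (1 - a) y = 0 := by
          intro y hy
          rw [LinearMap.sub_apply, Module.End.one_apply, h2 y hy, sub_self]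
        simpa using this
      · rw [LinearMap.sub_apply, Module.End.one_apply, h3, sub_zero])
  refine ⟨c, hc.1, ?_, hcy⟩
  have : ∀ y ∈ U, c y = 0 := by simpa using hc.2
  exact this

lemma span_comm {ε : End K V} {A : Set (End K V)} (hA : IsAlg ε A) {x : End K V}
    (hx : x ∈ Submodule.span K A) : x * ε = ε * x := by
  induction hx using Submodule.span_induction with
  | mem x hx => exact hA.comm x hx
  | zero => simp
  | add x y _ _ h h' => rw [add_mul, mul_add, h, h']
  | smul c x _ h => rw [smul_mul_assoc, mul_smul_comm, h]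

/-- The grading operator is in the span if the vectors can be separated. -/
theorem span_of_pointwise [Module.Finite K V] [CharZero K] {ε : End K V} {A : Set (End K V)}
    (hA : IsAlg ε A) (hε : ε * ε = 1)
    (h : ∀ x y, ε x = x → ε y = - y → ∃ T ∈ Submodule.span K A, T x = x ∧ T y = 0) :
    ε ∈ Submodule.span K A := by
  have hs : ∀ v, ε (ε v) = v := fun v => LinearMap.congr_fun hε v
  let U : Submodule K V := LinearMap.ker (ε - 1)
  let U' : Submodule K V := LinearMap.ker (ε + 1)
  have hU : ∀ y, y ∈ U ↔ ε y = y := fun y => by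
    rw [LinearMap.mem_ker, LinearMap.sub_apply, Module.End.one_apply, sub_eq_zero]
  have hU' : ∀ y, y ∈ U' ↔ ε y = - y := fun y => by
    rw [LinearMap.mem_ker, LinearMap.add_apply, Module.End.one_apply, add_eq_zero_iff_eq_neg]
  have hst : ∀ b ∈ Submodule.span K A, ∀ v, ε (b v) = b (ε v) := fun b hb v =>
    (LinearMap.congr_fun (span_comm hA hb) v).symm
  obtain ⟨c, hc, hc1, hc2⟩ := separate (A := Submodule.span K A) (U := U) (U' := U')
    (Submodule.subset_span hA.one) (fun a ha b hb => span_mul hA ha hb)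
    (IsNoetherian.noetherian _) (IsNoetherian.noetherian _)
    (fun b hb y hy => by rw [hU] at hy ⊢; rw [hst b hb, hy])
    (fun b hb y hy => by rw [hU'] at hy ⊢; rw [hst b hb, hy, map_neg])
    (fun y hy y' hy' => h y y' ((hU y).1 hy) ((hU' y').1 hy'))
  have h2 : (2 : K) ≠ 0 := two_ne_zero
  have h3 : ε = 1 - (2 : K) • c := by
    refine LinearMap.ext fun v => ?_
    have h4 : c (v + ε v) = 0 := hc1 _ ((hU _).2 (by rw [map_add, hs, add_comm]))
    have h5 : c (v - ε v) = v - ε v := hc2 _ ((hU' _).2 (by rw [map_sub, hs, neg_sub]))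
    have h6 : c ((2 : K) • v) = v - ε v := by
      have h7 : (2 : K) • v = (v + ε v) + (v - ε v) := by
        rw [two_smul]
        abel
      rw [h7, map_add, h4, h5, zero_add]
    rw [LinearMap.sub_apply, Module.End.one_apply, LinearMap.smul_apply, ← map_smul, h6]
    abel
  rw [h3]
  exact Submodule.sub_mem _ (Submodule.subset_span hA.one) (Submodule.smul_mem _ _ hc)

/-- The vectors can be separated if the stable subspaces are graded. -/
theorem pointwise_of_stable {ε : End K V} [CharZero K] {A : Set (End K V)} (hA : IsAlg ε A)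
    (h : ∀ N : Submodule K V, (∀ a ∈ A, ∀ x ∈ N, a x ∈ N) → ∀ x ∈ N, ε x ∈ N) :
    ∀ x y, ε x = x → ε y = - y → ∃ T ∈ Submodule.span K A, T x = x ∧ T y = 0 := by
  intro x y hx hy
  let N : Submodule K V := (Submodule.span K A).map (LinearMap.applyₗ (R := K) (x + y))
  have hN : ∀ a ∈ A, ∀ z ∈ N, a z ∈ N := by
    rintro a ha _ ⟨b, hb, rfl⟩
    exact ⟨a * b, span_mul hA (Submodule.subset_span ha) hb, rfl⟩
  have h0 : x + y ∈ N := ⟨1, Submodule.subset_span hA.one, rfl⟩
  have h1 := h N hN _ h0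
  rw [map_add, hx, hy] at h1
  have h2 : (2 : K) • x ∈ N := by
    have h3 : (2 : K) • x = (x + y) + (x + -y) := by
      rw [two_smul]
      abel
    rw [h3]
    exact N.add_mem h0 h1
  have h3 : x ∈ N := by
    have h4 := N.smul_mem (2 : K)⁻¹ h2
    rwa [smul_smul, inv_mul_cancel₀ (two_ne_zero : (2 : K) ≠ 0), one_smul] at h4
  obtain ⟨T, hT, hTx⟩ := h3
  have h5 : T x + T y = x := by
    rw [← map_add]
    exact hTx
  have h6 : T x - T y = x := by
    have h7 := congrArg ε h5
    have h8 : ∀ v, ε (T v) = T (ε v) := fun v => (LinearMap.congr_fun (span_comm hA hT) v).symm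
    rw [map_add, h8, h8, hx, hy, map_neg] at h7
    rw [sub_eq_add_neg]
    exact h7
  have h7 : T y = 0 := by
    have h8 : (2 : K) • T y = 0 := by
      have h9 : (2 : K) • T y = (T x + T y) - (T x - T y) := by
        rw [two_smul]
        abel
      rw [h9, h5, h6, sub_self]
    exact (smul_eq_zero.mp h8).resolve_left two_ne_zero
  exact ⟨T, hT, by rwa [h7, add_zero] at h5, h7⟩

/-- The stable subspaces are graded if the grading operator is in the span. -/
theorem stable_of_span {ε : End K V} {A : Set (End K V)} (h : ε ∈ Submodule.span K A) :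
    ∀ N : Submodule K V, (∀ a ∈ A, ∀ x ∈ N, a x ∈ N) → ∀ x ∈ N, ε x ∈ N := by
  intro N hN
  have key : ∀ T ∈ Submodule.span K A, ∀ x ∈ N, T x ∈ N := by
    intro T hT
    induction hT using Submodule.span_induction with
    | mem T hT => exact hN T hT
    | zero => exact fun x _ => N.zero_mem
    | add T T' _ _ h1 h2 => exact fun x hx => N.add_mem (h1 x hx) (h2 x hx)
    | smul c T _ h => exact fun x hx => N.smul_mem c (h x hx)
  exact key ε h

/-- Descent from coefficients in an overfield `L`. -/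
theorem core_over [Module.Finite K V] [CharZero K] (L : Type*) [Field L] [Algebra K L]
    {ε : End K V} {A : Set (End K V)} (hA : IsAlg ε A) (hε : ε * ε = 1)
    (hs : (ε.baseChange L : End L (TensorProduct K L V)) ∈ Submodule.span L
      ((fun f : End K V => (f.baseChange L : End L (TensorProduct K L V))) '' A)) : ε ∈ A := by
  have : CharZero L := charZero_of_injective_algebraMap (FaithfulSMul.algebraMap_injective K L)
  have hε' : (ε.baseChange L : End L (TensorProduct K L V)) * ε.baseChange L = 1 := by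
    rw [← LinearMap.baseChange_mul, hε, LinearMap.baseChange_one]
  obtain ⟨a, ha, h⟩ := core (isAlg_baseChange L hA) hε' hs
  have hinj : Function.Injective (LinearMap.baseChangeHom K L V V) :=
    LinearMap.baseChangeHom_injective K V L
  rw [← hinj h]
  exact ha

end Q20.Cp
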